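import Pool.Agent.Y690.Chars

/-!
# Powers of an odd unramified prime ideal of degree one
-/

set_option autoImplicit false

open Complex

namespace Pool.Agent.Y690

open Pool.Agent.W192.HK

variable {R : Subring ℂ} {ω : ℂ}

lemma one_add_pow_dvd (x : ℤ) (t : ℕ) : x ^ 2 ∣ (1 + x) ^ t - 1 - t * x := by
  induction t with
  | zero => simp
  | succ t ih =>
    have : (1 + x) ^ (t + 1) - 1 - ((t + 1 : ℕ) : ℤ) * x =
        (1 + x) * ((1 + x) ^ t - 1 - t * x) + t * x ^ 2 := by push_cast; ring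
    rw [this]
    exact dvd_add (Dvd.dvd.mul_left ih _) (dvd_mul_left _ _)

/-- `1 + p` generates the principal units -/
lemma nt_pow {p : ℕ} (hp : p.Prime) (hp2 : p ≠ 2) (i : ℕ) (a : ℤ)
    (ha : ((p : ℤ) ^ (i + 1)) ∣ a - 1) :
    ∃ t : ℕ, (p : ℤ) ^ (i + 2) ∣ a - ((1 + p : ℤ) ^ p ^ i) ^ t := by
  have hpi : Prime (p : ℤ) := Nat.prime_iff_prime_int.1 hp
  have hp0 : (p : ℤ) ≠ 0 := hpi.ne_zero
  set x : ℤ := (1 + p : ℤ) ^ p ^ i - 1 with hx
  have h1 : (p : ℤ) ^ (i + 1) ∣ x := by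
    have h := ZMod.orderOf_one_add_prime hp hp2 i
    have h2 : (1 + (p : ZMod (p ^ (i + 1)))) ^ p ^ i = 1 := by
      conv_lhs => rw [← h]
      exact pow_orderOf_eq_one _
    have h3 : ((x : ℤ) : ZMod (p ^ (i + 1))) = 0 := by
      rw [hx]; push_cast; rw [h2, sub_self]
    have h4 := (ZMod.intCast_zmod_eq_zero_iff_dvd x (p ^ (i + 1))).1 h3
    exact_mod_cast h4
  have h2 : ¬ (p : ℤ) ^ (i + 2) ∣ x := by
    intro hcon
    have h := ZMod.orderOf_one_add_prime hp hp2 (i + 1)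
    have h3 : ((x : ℤ) : ZMod (p ^ (i + 1 + 1))) = 0 := by
      rw [ZMod.intCast_zmod_eq_zero_iff_dvd]
      push_cast
      exact hcon
    have h4 : (1 + (p : ZMod (p ^ (i + 1 + 1)))) ^ p ^ i = 1 := by
      rw [hx] at h3
      push_cast at h3
      exact sub_eq_zero.1 h3
    have h5 := orderOf_dvd_of_pow_eq_one h4
    rw [h] at h5
    have h6 := (Nat.pow_dvd_pow_iff_le_right hp.one_lt).1 h5
    omega
  obtain ⟨u, hu⟩ := h1
  obtain ⟨v, hv⟩ := ha
  have hpu : ¬ (p : ℤ) ∣ u := by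
    rintro ⟨w, hw⟩
    apply h2
    exact ⟨w, by rw [hu, hw]; ring⟩
  -- `t u = v` modulo `p`
  obtain ⟨t, ht⟩ : ∃ t : ℕ, (p : ℤ) ∣ v - t * u := by
    have hcop : IsCoprime u (p : ℤ) := ((Prime.coprime_iff_not_dvd hpi).2 hpu).symm
    obtain ⟨y, z, hyz⟩ := hcop
    -- y * u + z * p = 1
    refine ⟨(v * y % p).toNat, ?_⟩
    have h3 : ((v * y % p).toNat : ℤ) = v * y % p := by
      rw [Int.toNat_of_nonneg (Int.emod_nonneg _ hp0)]
    rw [h3]
    have h4 : (p : ℤ) ∣ v * y - v * y % p := Int.dvd_self_sub_emod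
    obtain ⟨w, hw⟩ := h4
    have h5 : v - v * y % p * u = p * (v * z + w * u) := by
      have h6 : v * y % p = v * y - p * w := by rw [← hw]; ring
      rw [h6]
      have h7 : v = v * (y * u + z * p) := by rw [hyz, mul_one]
      calc v - (v * y - p * w) * u = v * (y * u + z * p) - (v * y - p * w) * u := by rw [hyz, mul_one]
        _ = _ := by ring
    exact ⟨_, h5⟩
  refine ⟨t, ?_⟩
  have e1 : (1 + p : ℤ) ^ p ^ i = 1 + x := by rw [hx]; ring
  rw [e1]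
  have e2 : a - (1 + x) ^ t = ((a - 1) - t * x) - ((1 + x) ^ t - 1 - t * x) := by ring
  rw [e2]
  refine dvd_sub ?_ ?_
  · obtain ⟨w, hw⟩ := ht
    refine ⟨w, ?_⟩
    rw [hv, hu]
    calc (p : ℤ) ^ (i + 1) * v - t * ((p : ℤ) ^ (i + 1) * u) = (p : ℤ) ^ (i + 1) * (v - t * u) := by ring
      _ = _ := by rw [hw]; ring
  · refine dvd_trans ?_ (one_add_pow_dvd x t)
    rw [hu, mul_pow, ← pow_mul]
    exact dvd_mul_of_dvd_left (pow_dvd_pow _ (by omega)) _

/-- an odd unramified prime ideal of degree one -/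
structure Deg1 (P : Ideal R) (p : ℕ) : Prop where
  pr : p.Prime
  odd : p ≠ 2
  card : nm P = p
  unr : (p : R) ∉ P ^ 2

section

variable {P : Ideal R} {p : ℕ}

lemma Deg1.ne_bot (hb : H_BASIC) (hR : QR R ω) (h : Deg1 P p) : P ≠ ⊥ := by
  rintro rfl
  obtain ⟨-, b2, -⟩ := hb R ω hR
  have h1 := h.card
  rw [b2] at h1
  have h2 : (0 : ℝ) < p := by exact_mod_cast h.pr.pos
  linarith

lemma Deg1.ne_top (hb : H_BASIC) (hR : QR R ω) (h : Deg1 P p) : P ≠ ⊤ := by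
  intro h0
  obtain ⟨-, -, -, -, -, -, b7, -⟩ := hb R ω hR
  have h1 := (b7 P).2 h0
  rw [h.card] at h1
  have h2 : (1 : ℝ) < p := by exact_mod_cast h.pr.one_lt
  linarith

lemma Deg1.mem (hb : H_BASIC) (hR : QR R ω) (h : Deg1 P p) : (p : R) ∈ P := by
  have h1 : Nat.card (R ⧸ P) = p := by
    have := h.card
    rw [nm] at this
    exact_mod_cast this
  obtain ⟨b1, -⟩ := hb R ω hR
  have := b1 P (h.ne_bot hb hR)
  have h2 : Nat.card (R ⧸ P) • (1 : R ⧸ P) = 0 := card_nsmul_eq_zero'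
  rw [h1, nsmul_eq_mul, mul_one] at h2
  rw [← Ideal.Quotient.eq_zero_iff_mem, map_natCast]
  exact h2

/-- `P` is maximal, in the form needed -/
lemma Deg1.cop (hb : H_BASIC) (hR : QR R ω) (h : Deg1 P p) (J : Ideal R) :
    P ∣ J ∨ IsCoprime P J := by
  obtain ⟨b1, b2, b3, b4, b5, b6, b7, -⟩ := hb R ω hR
  have := hR.ded
  have hP0 := h.ne_bot hb hR
  by_cases hI : P ⊔ J = ⊤
  · exact Or.inr (Ideal.isCoprime_iff_sup_eq.2 hI)
  left
  have h1 : P ⊔ J ∣ P := Ideal.dvd_iff_le.2 le_sup_left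
  obtain ⟨K, hK⟩ := h1
  have h0 : P ⊔ J ≠ ⊥ := by
    intro h1
    apply hP0
    rw [hK, h1, Ideal.bot_mul]
  have hK0 : K ≠ ⊥ := by
    intro h1
    apply hP0
    rw [hK, h1, Ideal.mul_bot]
  have h2 : nm P = nm (P ⊔ J) * nm K := (congrArg nm hK).trans (b4 _ _)
  have h3 : p = Nat.card (R ⧸ (P ⊔ J)) * Nat.card (R ⧸ K) := by
    have h4 : (p : ℝ) = (Nat.card (R ⧸ (P ⊔ J)) : ℝ) * (Nat.card (R ⧸ K) : ℝ) := by
      rw [← h.card, h2]; rfl
    exact_mod_cast h4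
  have h4 : Nat.card (R ⧸ (P ⊔ J)) ∣ p := ⟨_, h3⟩
  rcases (Nat.dvd_prime h.pr).1 h4 with h5 | h5
  · exfalso
    apply hI
    rw [← b7, nm, h5, Nat.cast_one]
  · have h6 : Nat.card (R ⧸ K) = 1 := by
      rw [h5] at h3
      have hp := h.pr.pos
      have h7 : p * 1 = p * Nat.card (R ⧸ K) := by omega
      exact (Nat.eq_of_mul_eq_mul_left hp h7).symm
    have h7 : K = ⊤ := by
      rw [← b7, nm, h6, Nat.cast_one]
    rw [h7, Ideal.mul_top] at hK
    rw [Ideal.dvd_iff_le, hK]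
    exact le_sup_right

lemma Deg1.int_mem (hb : H_BASIC) (hR : QR R ω) (h : Deg1 P p) (j : ℕ) :
    ∀ n : ℤ, (n : R) ∈ P ^ j ↔ (p : ℤ) ^ j ∣ n := by
  have := hR.ded
  have hpi : Prime (p : ℤ) := Nat.prime_iff_prime_int.1 h.pr
  have hpP := h.mem hb hR
  have hP0 := h.ne_bot hb hR
  intro n
  constructor
  · revert n
    induction j with
    | zero => intro n _; rw [pow_zero]; exact one_dvd _
    | succ j ih =>
      intro n hn
      have h1 : (n : R) ∈ P := Ideal.pow_le_self (Nat.succ_ne_zero j) hn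
      have h2 : (p : ℤ) ∣ n := by
        by_contra hnd
        obtain ⟨y, z, hyz⟩ := (Prime.coprime_iff_not_dvd hpi).2 hnd
        apply h.ne_top hb hR
        rw [Ideal.eq_top_iff_one]
        have h3 : (1 : R) = (y : R) * (p : R) + (z : R) * (n : R) := by
          have := congrArg (Int.cast : ℤ → R) hyz
          push_cast at this
          exact this.symm
        rw [h3]
        exact P.add_mem (P.mul_mem_left _ hpP) (P.mul_mem_left _ h1)
      obtain ⟨n', rfl⟩ := h2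
      rw [pow_succ, mul_comm ((p : ℤ) ^ j)]
      refine mul_dvd_mul_left _ (ih n' ?_)
      -- `(p) = P J`
      have h3 : P ∣ sp (p : R) := by
        rw [Ideal.dvd_iff_le]
        exact (Ideal.span_singleton_le_iff_mem P).2 hpP
      obtain ⟨J, hJ⟩ := h3
      have h4 : IsCoprime P J := by
        rcases h.cop hb hR J with h5 | h5
        · exfalso
          apply h.unr
          have h6 : P ^ 2 ∣ sp (p : R) := by
            rw [hJ, pow_two]
            exact mul_dvd_mul_left _ h5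
          exact Ideal.le_of_dvd h6 (Ideal.mem_span_singleton_self _)
        · exact h5
      have h5 : P ^ (j + 1) ∣ sp ((p : R) * (n' : R)) := by
        rw [Ideal.dvd_iff_le]
        refine (Ideal.span_singleton_le_iff_mem _).2 ?_
        push_cast at hn
        exact hn
      rw [sp_mul, hJ, pow_succ, mul_comm (P ^ j) P, mul_assoc] at h5
      have h6 : P ^ j ∣ J * sp (n' : R) := (mul_dvd_mul_iff_left hP0).1 h5
      have h7 : P ^ j ∣ sp (n' : R) := (IsCoprime.pow_left h4).dvd_of_dvd_mul_left h6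
      exact Ideal.le_of_dvd h7 (Ideal.mem_span_singleton_self _)
  · rintro ⟨w, rfl⟩
    push_cast
    exact (P ^ j).mul_mem_right _ (Ideal.pow_mem_pow hpP j)

lemma Deg1.nm_pow (hb : H_BASIC) (hR : QR R ω) (h : Deg1 P p) (i : ℕ) :
    nm (P ^ i) = (p : ℝ) ^ i := by
  obtain ⟨b1, b2, b3, b4, b5, b6, b7, -⟩ := hb R ω hR
  induction i with
  | zero => rw [pow_zero, pow_zero, Ideal.one_eq_top, b7]
  | succ i ih => rw [pow_succ, b4, ih, h.card, pow_succ]

lemma Deg1.char (hb : H_BASIC) (hR : QR R ω) (h : Deg1 P p) (j : ℕ) :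
    CharP (R ⧸ P ^ j) (p ^ j) := by
  refine ⟨fun n => ?_⟩
  have h1 := h.int_mem hb hR j n
  rw [← map_natCast (Ideal.Quotient.mk (P ^ j)), Ideal.Quotient.eq_zero_iff_mem]
  have h2 : ((p : ℤ) ^ j ∣ (n : ℤ)) ↔ p ^ j ∣ n := by
    rw [← Int.natCast_dvd_natCast]
    push_cast
    rfl
  rw [← h2, ← h1]
  push_cast
  rfl

lemma Deg1.bij (hb : H_BASIC) (hR : QR R ω) (h : Deg1 P p) (j : ℕ) :
    ∃ f : ZMod (p ^ j) →+* R ⧸ P ^ j, Function.Bijective f := by
  obtain ⟨b1, -⟩ := hb R ω hR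
  have := hR.ded
  have hNZ : NeZero (p ^ j) := ⟨(pow_pos h.pr.pos j).ne'⟩
  have hfin : Finite (R ⧸ P ^ j) := b1 _ (pow_ne_zero j (h.ne_bot hb hR))
  have hch := h.char hb hR j
  have := Fintype.ofFinite (R ⧸ P ^ j)
  refine ⟨ZMod.castHom (dvd_refl (p ^ j)) (R ⧸ P ^ j), ?_⟩
  refine ZMod.castHom_bijective _ ?_
  have h1 := h.nm_pow hb hR j
  rw [nm] at h1
  rw [← Nat.card_eq_fintype_card]
  exact_mod_cast h1

lemma Deg1.nat (hb : H_BASIC) (hR : QR R ω) (h : Deg1 P p) (j : ℕ) (α : R) :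
    ∃ a : ℕ, α - (a : R) ∈ P ^ j := by
  have hNZ : NeZero (p ^ j) := ⟨(pow_pos h.pr.pos j).ne'⟩
  obtain ⟨f, hf⟩ := h.bij hb hR j
  obtain ⟨x, hx⟩ := hf.2 (Ideal.Quotient.mk (P ^ j) α)
  refine ⟨x.val, ?_⟩
  rw [← Ideal.Quotient.eq, ← hx, map_natCast, ← map_natCast f, ZMod.natCast_zmod_val]

lemma Deg1.cyc (hb : H_BASIC) (hR : QR R ω) (h : Deg1 P p) (j : ℕ) : IsCyclic (R ⧸ P ^ j)ˣ := by
  have hNZ : NeZero (p ^ j) := ⟨(pow_pos h.pr.pos j).ne'⟩
  have hcyc : IsCyclic (ZMod (p ^ j))ˣ := ZMod.isCyclic_units_of_prime_pow p h.pr h.odd j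
  obtain ⟨f, hf⟩ := h.bij hb hR j
  have e := Units.mapEquiv (RingEquiv.ofBijective f hf).toMulEquiv
  exact isCyclic_of_surjective e.toMonoidHom e.surjective

lemma cop_pow_iff {I : Ideal R} {j : ℕ} (hj : j ≠ 0) : IsCoprime I (P ^ j) ↔ IsCoprime I P := by
  constructor
  · intro h
    exact cop_mono (dvd_pow_self P hj) h
  · intro h
    exact IsCoprime.pow_right h

/-- the order of a character of conductor `P ^ j` on the principal ideals -/
lemma Deg1.order (hb : H_BASIC) (hfpr : H_FPR) (hR : QR R ω) (h : Deg1 P p) {j : ℕ} {c : Ideal R}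
    (hc0 : c ≠ ⊥) (hjc : P ^ j ∣ c) {χ : Ideal R → ℂ} (hχ : HC 0 (P ^ j) χ) {γ : R} (hγ : Gen c γ) {e : ℕ}
    (he : 0 < e) (hχe : χ (sp γ) ^ e = 1) : p ^ (j - 1) ≤ e := by
  have := hR.ded
  by_cases hj : j ≤ 1
  · have : j - 1 = 0 := by omega
    rw [this, pow_zero]
    exact he
  obtain ⟨i, rfl⟩ : ∃ i, j = i + 2 := ⟨j - 2, by omega⟩
  have hpi : Prime (p : ℤ) := Nat.prime_iff_prime_int.1 h.pr
  have hpR : ((p : R) : R) ∈ P := h.mem hb hR
  have hPt := h.ne_top hb hR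
  have hPj : P ^ (i + 2) ≠ ⊤ := by
    intro h1
    apply hPt
    rw [Ideal.eq_top_iff_one] at h1 ⊢
    exact Ideal.pow_le_self (by omega) h1
  -- values at `1 + p`
  set w : ℂ := χ (sp (1 + (p : R))) with hw
  have hcop1 : IsCoprime (sp (1 + (p : R))) P := by
    rw [cop_iff]
    exact ⟨1, by rw [mul_one, add_sub_cancel_left]; exact hpR⟩
  have hcop2 : ∀ j : ℕ, IsCoprime (sp (1 + (p : R))) (P ^ j) := fun j => IsCoprime.pow_right hcop1
  have h1p : (1 + (p : R)) ≠ 0 := ne_zero_of_cop hPt hcop1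
  -- the order of `w` divides `e`
  have hwe : w ^ e = 1 := by
    obtain ⟨α, hα0, hαc, hα1⟩ := lift_cop hb hR hc0 h1p (hcop2 (i + 2))
    obtain ⟨n, hn⟩ := hγ.gen α hαc
    have h3 : χ (sp α) = χ (sp γ) ^ n := chi_gen hfpr hR hjc hχ hγ hα0 hn
    have h4 : w = χ (sp α) := by
      rw [hw]
      exact (chi_per hfpr hR (dvd_refl _) hχ hα0 h1p hα1).symm
    rw [h4, h3, ← pow_mul, mul_comm, pow_mul, hχe, one_pow]
  have hwp : w ^ p ^ (i + 1) = 1 := by
    have h3 := ZMod.orderOf_one_add_prime h.pr h.odd (i + 1)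
    have h4 : (1 + (p : ZMod (p ^ (i + 1 + 1)))) ^ p ^ (i + 1) = 1 := by
      conv_lhs => rw [← h3]
      exact pow_orderOf_eq_one _
    have h5 : (p : ℤ) ^ (i + 2) ∣ (1 + p : ℤ) ^ p ^ (i + 1) - 1 := by
      have h6 : (((1 + p : ℤ) ^ p ^ (i + 1) - 1 : ℤ) : ZMod (p ^ (i + 1 + 1))) = 0 := by
        push_cast
        rw [h4, sub_self]
      have h7 := (ZMod.intCast_zmod_eq_zero_iff_dvd _ _).1 h6
      push_cast at h7
      exact h7
    rw [← h.int_mem hb hR] at h5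
    push_cast at h5
    rw [hw, ← hc_pow hχ, ← sp_pow, chi_per hfpr hR (dvd_refl _) hχ (pow_ne_zero _ h1p) one_ne_zero h5,
      sp, Ideal.span_singleton_one, hc_top hχ]
  have hwn : ¬ w ^ p ^ i = 1 := by
    intro hw1
    have hlt : P ^ (i + 2) < P ^ (i + 1) := by
      refine lt_of_le_of_ne (Ideal.pow_le_pow_right (by omega)) ?_
      intro h3
      have h4 : nm (P ^ (i + 2)) = nm (P ^ (i + 1)) := by rw [h3]
      rw [h.nm_pow hb hR, h.nm_pow hb hR] at h4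
      have hp1 : (1 : ℝ) < p := by exact_mod_cast h.pr.one_lt
      have h5 := pow_lt_pow_right₀ hp1 (show i + 1 < i + 2 by omega)
      linarith
    obtain ⟨α, hα0, hα1, hα2, hα3⟩ := hχ.prim _ hlt
    apply hα3
    rw [pow_zero]
    obtain ⟨a, ha⟩ := h.nat hb hR (i + 2) α
    have h3 : ((a : ℤ) : R) - 1 ∈ P ^ (i + 1) := by
      have h4 : ((a : ℤ) : R) - 1 = (α - 1) - (α - (a : R)) := by push_cast; ring
      rw [h4]
      exact (P ^ (i + 1)).sub_mem hα1 (hlt.le ha)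
    have h4 : (p : ℤ) ^ (i + 1) ∣ (a : ℤ) - 1 := by
      rw [← h.int_mem hb hR]
      push_cast at h3 ⊢
      exact h3
    obtain ⟨t, ht⟩ := nt_pow h.pr h.odd i a h4
    rw [← h.int_mem hb hR] at ht
    have h5 : α - ((1 + (p : R)) ^ p ^ i) ^ t ∈ P ^ (i + 2) := by
      have h6 : α - ((1 + (p : R)) ^ p ^ i) ^ t = (α - (a : R)) +
          (((a : ℤ) - ((1 + p : ℤ) ^ p ^ i) ^ t : ℤ) : R) := by push_cast; ring
      rw [h6]
      exact (P ^ (i + 2)).add_mem ha ht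
    rw [chi_per hfpr hR (dvd_refl _) hχ hα0 (pow_ne_zero _ (pow_ne_zero _ h1p)) h5, sp_pow,
      hc_pow hχ, sp_pow, hc_pow hχ, ← hw, hw1, one_pow]
  have hF : Fact p.Prime := ⟨h.pr⟩
  have hord := orderOf_eq_prime_pow hwn hwp
  have h3 := orderOf_dvd_of_pow_eq_one hwe
  rw [hord] at h3
  exact Nat.le_of_dvd he h3

end

end Pool.Agent.Y690
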