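import Pool.Agent.Y690.Ordu
import Pool.Agent.Y690.Tower
import Pool.Agent.Y683.Cent

/-!
# The `L`-function of one Hecke character twisted by one ray class character
-/

set_option autoImplicit false

open Complex Filter Topology

namespace Pool.Agent.Y690

open Pool.Agent.W192.HK Pool.Agent.TH936.CM

variable {R : Subring ℂ} {ω : ℂ}

/-- primitive Hecke characters of conductor `f` and infinity type `(a, b)` -/
structure HT (a b : ℕ) (f : Ideal R) (θ : Ideal R → ℂ) : Prop where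
  ne : f ≠ ⊥
  mul : ∀ I J : Ideal R, θ (I * J) = θ I * θ J
  zero : ∀ I : Ideal R, θ I = 0 ↔ (I = ⊥ ∨ ¬ IsCoprime I f)
  princ : ∀ α : R, α ≠ 0 → α - 1 ∈ f →
    θ (sp α) = (α : ℂ) ^ a * (starRingEnd ℂ) (α : ℂ) ^ b
  prim : ∀ f' : Ideal R, f < f' → ∃ α : R, α ≠ 0 ∧ α - 1 ∈ f' ∧ IsCoprime (sp α) f ∧
    θ (sp α) ≠ (α : ℂ) ^ a * (starRingEnd ℂ) (α : ℂ) ^ b

lemma HT.conj {a b : ℕ} {f : Ideal R} {θ : Ideal R → ℂ} (h : HT a b f θ) :
    HT b a f (fun I => (starRingEnd ℂ) (θ I)) := by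
  refine ⟨h.ne, fun I J => by rw [h.mul, map_mul], fun I => ?_, fun α h1 h2 => ?_, fun f' hf => ?_⟩
  · rw [map_eq_zero]; exact h.zero I
  · rw [h.princ α h1 h2, map_mul, map_pow, map_pow, Complex.conj_conj, mul_comm]
  · obtain ⟨α, h1, h2, h3, h4⟩ := h.prim f' hf
    refine ⟨α, h1, h2, h3, fun h5 => h4 ?_⟩
    have h6 := congrArg (starRingEnd ℂ) h5
    rw [Complex.conj_conj, map_mul, map_pow, map_pow, Complex.conj_conj, mul_comm] at h6
    exact h6

lemma HT.red (hb : H_BASIC) (hR : QR R ω) {a b : ℕ} (hab : b ≤ a) {f : Ideal R}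
    {θ : Ideal R → ℂ} (h : HT a b f θ) : HC (a - b) f (fun I => θ I / (nm I : ℂ) ^ b) := by
  obtain ⟨b1, b2, b3, b4, b5, b6, b7, -⟩ := hb R ω hR
  have key : ∀ α : R, α ≠ 0 → ∀ x : ℂ, (x / (nm (sp α) : ℂ) ^ b = (α : ℂ) ^ (a - b) ↔
      x = (α : ℂ) ^ a * (starRingEnd ℂ) (α : ℂ) ^ b) := by
    intro α hα x
    have hα' : (α : ℂ) ≠ 0 := fun h => hα (Subtype.ext h)
    have hc' : (starRingEnd ℂ) (α : ℂ) ≠ 0 := by rwa [Ne, map_eq_zero]
    rw [b5, ← Complex.mul_conj, mul_pow, div_eq_iff (mul_ne_zero (pow_ne_zero _ hα')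
      (pow_ne_zero _ hc')), ← mul_assoc, ← pow_add, Nat.sub_add_cancel hab]
  refine ⟨h.ne, fun I J => ?_, fun I => ?_, fun α h1 h2 => ?_, fun f' hf => ?_⟩
  · rw [h.mul, b4, Complex.ofReal_mul, mul_pow, mul_div_mul_comm]
  · rw [← h.zero I, div_eq_zero_iff]
    constructor
    · rintro (h1 | h1)
      · exact h1
      · have h2 : (nm I : ℂ) = 0 := by
          by_contra h3
          exact pow_ne_zero b h3 h1
        have h3 : nm I = 0 := by exact_mod_cast h2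
        rw [h.zero]
        left
        by_contra h4
        have := b3 I h4
        linarith
    · intro h1
      exact Or.inl h1
  · rw [key α h1]
    exact h.princ α h1 h2
  · obtain ⟨α, h1, h2, h3, h4⟩ := h.prim f' hf
    exact ⟨α, h1, h2, h3, fun h5 => h4 ((key α h1 _).1 h5)⟩

lemma hc_conj {d : Ideal R} {χ : Ideal R → ℂ} (h : HC 0 d χ) :
    HC 0 d (fun I => (starRingEnd ℂ) (χ I)) := by
  refine ⟨h.ne, fun I J => by rw [h.mul, map_mul], fun I => ?_, fun α h1 h2 => ?_, fun f' hf => ?_⟩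
  · rw [map_eq_zero]; exact h.zero I
  · rw [h.princ α h1 h2, pow_zero, map_one]
  · obtain ⟨α, h1, h2, h3, h4⟩ := h.prim f' hf
    refine ⟨α, h1, h2, h3, fun h5 => h4 ?_⟩
    have h6 := congrArg (starRingEnd ℂ) h5
    rw [Complex.conj_conj, pow_zero, map_one] at h6
    rw [h6, pow_zero]

/-! ## conjugating entire functions -/

/-- `z ↦ conj (F (conj z))` -/
noncomputable def cj (F : ℂ → ℂ) : ℂ → ℂ := fun z => (starRingEnd ℂ) (F ((starRingEnd ℂ) z))

lemma cj_diff {F : ℂ → ℂ} (hF : Differentiable ℂ F) : Differentiable ℂ (cj F) := by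
  intro z
  have h := (differentiableAt_conj_conj_iff (𝕜 := ℂ) (f := F) (x := z)).2 (hF _)
  exact h

lemma cj_order {F : ℂ → ℂ} (hF : Differentiable ℂ F) (x : ℝ)
    (h : analyticOrderAt F (x : ℂ) ≠ ⊤) :
    analyticOrderAt (cj F) (x : ℂ) = analyticOrderAt F (x : ℂ) := by
  obtain ⟨n, hn⟩ := ENat.ne_top_iff_exists.1 h
  obtain ⟨g, hg1, hg2, hg3⟩ := (hF.analyticAt (x : ℂ)).analyticOrderAt_eq_natCast.1 hn.symm
  rw [← hn, ((cj_diff hF).analyticAt (x : ℂ)).analyticOrderAt_eq_natCast]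
  have hcont : Tendsto (starRingEnd ℂ) (𝓝 (x : ℂ)) (𝓝 (x : ℂ)) := by
    have h1 := Complex.continuous_conj.tendsto (x : ℂ)
    rwa [Complex.conj_ofReal] at h1
  refine ⟨cj g, ?_, ?_, ?_⟩
  · rw [Complex.analyticAt_iff_eventually_differentiableAt] at hg1 ⊢
    filter_upwards [hcont.eventually hg1] with z hz
    exact (differentiableAt_conj_conj_iff (𝕜 := ℂ) (f := g) (x := z)).2 hz
  · rw [cj, Complex.conj_ofReal, Ne, map_eq_zero]
    exact hg2
  · filter_upwards [hcont.eventually hg3] with z hz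
    rw [cj, hz, smul_eq_mul, smul_eq_mul, map_mul, map_pow, map_sub, Complex.conj_conj,
      Complex.conj_ofReal, cj]

/-- translation -/
lemma shift_order {F : ℂ → ℂ} (hF : Differentiable ℂ F) (x b : ℂ)
    (h : analyticOrderAt F (x - b) ≠ ⊤) :
    analyticOrderAt (fun z => F (z - b)) x = analyticOrderAt F (x - b) := by
  obtain ⟨n, hn⟩ := ENat.ne_top_iff_exists.1 h
  obtain ⟨g, hg1, hg2, hg3⟩ := (hF.analyticAt (x - b)).analyticOrderAt_eq_natCast.1 hn.symm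
  have hd : Differentiable ℂ (fun z => F (z - b)) := by fun_prop
  rw [← hn, (hd.analyticAt x).analyticOrderAt_eq_natCast]
  have hcont : Tendsto (fun z : ℂ => z - b) (𝓝 x) (𝓝 (x - b)) :=
    (continuous_id.sub continuous_const).tendsto x
  refine ⟨fun z => g (z - b), ?_, hg2, ?_⟩
  · rw [Complex.analyticAt_iff_eventually_differentiableAt] at hg1 ⊢
    filter_upwards [hcont.eventually hg1] with z hz
    exact DifferentiableAt.comp z hz (by fun_prop)
  · filter_upwards [hcont.eventually hg3] with z hz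
    rw [hz]
    congr 2
    ring

/-! ## the pair -/

/-- the conclusion for one pair -/
def PC (K N0 ε : ℝ) (m : ℕ) (f d : Ideal R) (θ χ : Ideal R → ℂ) (e : ℕ) : Prop :=
  ∃ F : ℂ → ℂ, Differentiable ℂ F ∧
    (∀ z : ℂ, (m : ℝ) + 1 / 2 < z.re →
      HasSum (fun I : Ideal R => θ I * χ I * (nm I : ℂ) ^ (-z)) (F z)) ∧
    analyticOrderAt F (m : ℂ) ≠ ⊤ ∧
    (analyticOrderNatAt F (m : ℂ) : ℝ) ≤ K * (1 + Real.log (nm f * nm d) + Real.log m) ∧
    (N0 ≤ nm f * nm d → (nm f * nm d) ^ (2 / 3 + ε) ≤ e →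
      m * (nm f * nm d) ^ (1 + ε) ≤ (e : ℝ) ^ 2 → analyticOrderNatAt F (m : ℂ) = 0)

theorem pair0 (hb : H_BASIC) (hcls : H_CLS) (hcnt : H_CNT) (hfpr : H_FPR) (hfp : H_FP)
    (hdec : H_DEC) (hgauss : H_GAUSS) (htheta : H_THETA) (hafe : H_AFE) (hprod : H_PROD)
    (hfinb : Pool.Agent.Y683.FINB)
    (hR : QR R ω) (ε : ℝ) (hε : 0 < ε) :
    ∃ K N0 : ℝ, 0 < K ∧ ∀ (m : ℕ) (f : Ideal R) (θ : Ideal R → ℂ), 1 ≤ m → HC (2 * m - 1) f θ →
      ∀ (c : Ideal R) (γ : R), c ≠ ⊥ → Gen c γ → IsCoprime f c → ∀ (d : Ideal R) (χ : Ideal R → ℂ),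
      d ∣ c → HC 0 d χ → PC K N0 ε m f d θ χ (orderOf (χ (sp γ))) := by
  obtain ⟨K, hK, hord⟩ := ordU_le hb hfp hcnt hgauss htheta hcls hR
  obtain ⟨N0, hN0⟩ := Pool.Agent.Y683.nonvan hb hcls hcnt hfpr hfp hdec hafe hfinb hR ε hε
  refine ⟨K, N0, hK, fun m f θ hm hθ c γ hc hγ hfc d χ hdc hχ => ?_⟩
  obtain ⟨b1, b2, b3, b4, b5, b6, b7, -⟩ := hb R ω hR
  have hfd : IsCoprime f d := cop_mono hdc hfc
  have hH : HC (2 * m - 1) (f * d) (fun I => θ I * χ I) := hprod R ω hR _ f d θ χ hθ hχ hfd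
  obtain ⟨h, hh1, hpr, hsys⟩ := hcls R ω hR
  obtain ⟨s, hh, μ, T, -, hS⟩ := hsys (f * d) hH.ne
  obtain ⟨F, hF1, hF2, -⟩ := hafe R ω hR m hm (f * d) _ hH s hh μ T hS
  obtain ⟨e, rfl⟩ : ∃ e, m = e + 1 := ⟨m - 1, by omega⟩
  have hm1 : 2 * (e + 1) - 1 = 2 * e + 1 := by omega
  obtain ⟨ho1, ho2⟩ := hord e (f * d) (fun I => θ I * χ I) (by rw [← hm1]; exact hH) F hF1 hF2
  refine ⟨F, hF1, hF2, ho1, ?_, fun h1 h2 h3 => ?_⟩
  · rw [b4] at ho2
    exact ho2
  · rw [← b4] at h1 h2 h3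
    have hde : ∀ k : ℕ, 0 < k → (∀ α : R, IsCoprime (sp α) (f * d) →
        fp (2 * (e + 1) - 1) (fun I => θ I * χ I) α ^ k = 1) → orderOf (χ (sp γ)) ≤ k := by
      intro k hk hα
      by_cases hdt : d = ⊤
      · have h4 : χ (sp γ) = 1 := by
          rw [hχ.princ γ hγ.ne (by rw [hdt]; exact Submodule.mem_top), pow_zero]
        rw [h4, orderOf_one]
        exact hk
      -- an element `1` modulo `f` and `γ` modulo `d`
      obtain ⟨x, hx, y, hy, hxy⟩ := Ideal.isCoprime_iff_exists.1 hfd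
      set β : R := y + γ * x with hβ
      have h4 : β - 1 ∈ f := by
        have : β - 1 = γ * x - x := by rw [hβ, ← hxy]; ring
        rw [this]
        exact f.sub_mem (f.mul_mem_left _ hx) hx
      have h5 : β - γ ∈ d := by
        have : β - γ = y - γ * y := by
          have h6 : x = 1 - y := by rw [← hxy]; ring
          rw [hβ, h6]; ring
        rw [this]
        exact d.sub_mem hy (d.mul_mem_left _ hy)
      have h6 : IsCoprime (sp β) d := (cop_congr h5).2 (cop_mono hdc hγ.cop)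
      have h7 : IsCoprime (sp β) (f * d) := by
        refine IsCoprime.mul_right ((cop_congr h4).2 ?_) h6
        rw [Ideal.isCoprime_iff_sup_eq, sp, Ideal.span_singleton_one]
        exact top_sup_eq _
      have hβ0 : β ≠ 0 := ne_zero_of_cop hdt h6
      have hβc : (β : ℂ) ≠ 0 := fun h => hβ0 (Subtype.ext h)
      have h8 := hα β h7
      rw [fp] at h8
      have h9 : θ (sp β) * χ (sp β) / (β : ℂ) ^ (2 * (e + 1) - 1) = χ (sp γ) := by
        rw [hθ.princ β hβ0 h4, mul_div_assoc, mul_div_cancel₀ _ (pow_ne_zero _ hβc)]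
        exact chi_per hfpr hR (dvd_refl d) hχ hβ0 hγ.ne h5
      rw [h9] at h8
      exact orderOf_le_of_pow_eq_one hk h8
    obtain ⟨F', hF'1, hF'2, hF'3⟩ := hN0 (e + 1) hm (f * d) _ hH h1 (orderOf (χ (sp γ))) hde h2 h3
    have hFF : F = F' := by
      refine entire_eq hF1 hF'1 (e + 4) fun z hz => ?_
      have hzz : ((e + 1 : ℕ) : ℝ) + 1 / 2 < z.re := by push_cast; linarith
      exact (hF2 z hzz).unique (hF'2 z hzz)
    rw [hFF, analyticOrderNatAt]
    have h4 : analyticOrderAt F' ((e + 1 : ℕ) : ℂ) = 0 := by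
      rw [(hF'1.analyticAt _).analyticOrderAt_eq_zero]
      exact hF'3
    rw [h4]
    rfl

lemma PC.shift (hb : H_BASIC) (hR : QR R ω) {K N0 ε : ℝ} (hK : 0 < K) {m b : ℕ} (hbm : b < m)
    {f d : Ideal R} (hf : f ≠ ⊥) (hd : d ≠ ⊥) {θ χ : Ideal R → ℂ} (hθ : θ ⊥ = 0) {e : ℕ}
    (h : PC K N0 ε (m - b) f d (fun I => θ I / (nm I : ℂ) ^ b) χ e) :
    PC K N0 ε m f d θ χ e := by
  obtain ⟨b1, b2, b3, b4, b5, b6, b7, -⟩ := hb R ω hR
  obtain ⟨F, h1, h2, h3, h4, h5⟩ := h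
  have hmb : ((m - b : ℕ) : ℂ) = (m : ℂ) - (b : ℂ) := by push_cast [Nat.cast_sub hbm.le]; ring
  have hmbr : ((m - b : ℕ) : ℝ) = (m : ℝ) - (b : ℝ) := by push_cast [Nat.cast_sub hbm.le]; ring
  have hm1 : (1 : ℝ) ≤ ((m - b : ℕ) : ℝ) := by
    have : 1 ≤ m - b := by omega
    exact_mod_cast this
  have hmm : ((m - b : ℕ) : ℝ) ≤ m := by
    have : m - b ≤ m := Nat.sub_le _ _
    exact_mod_cast this
  have hq1 : 1 ≤ nm f * nm d := by
    have := b3 f hf
    have := b3 d hd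
    nlinarith
  rw [hmb] at h3 h4 h5
  have ho := shift_order h1 (m : ℂ) (b : ℂ) h3
  have hoN : analyticOrderNatAt (fun z => F (z - b)) (m : ℂ) =
      analyticOrderNatAt F ((m : ℂ) - (b : ℂ)) := by
    rw [analyticOrderNatAt, analyticOrderNatAt, ho]
  refine ⟨fun z => F (z - b), by fun_prop, fun z hz => ?_, ?_, ?_, fun k1 k2 k3 => ?_⟩
  · have hz' : ((m - b : ℕ) : ℝ) + 1 / 2 < (z - b).re := by
      rw [hmbr, Complex.sub_re, Complex.natCast_re]
      linarith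
    have h6 : (fun I : Ideal R => θ I * χ I * (nm I : ℂ) ^ (-z)) =
        fun I : Ideal R => θ I / (nm I : ℂ) ^ b * χ I * (nm I : ℂ) ^ (-(z - b)) := by
      funext I
      by_cases hI : I = ⊥
      · rw [hI, hθ, zero_div, zero_mul, zero_mul, zero_mul]
      · have h7 : (nm I : ℂ) ≠ 0 := by
          have h8 := b3 I hI
          have : nm I ≠ 0 := by linarith
          exact_mod_cast this
        have h8 : (nm I : ℂ) ^ (-(z - b)) = (nm I : ℂ) ^ (-z) * (nm I : ℂ) ^ b := by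
          rw [show -(z - (b : ℂ)) = -z + b by ring, Complex.cpow_add _ _ h7, Complex.cpow_natCast]
        rw [h8]
        field_simp
    rw [h6]
    exact h2 (z - b) hz'
  · rw [ho]; exact h3
  · rw [hoN]
    refine h4.trans ?_
    have h6 : Real.log ((m - b : ℕ) : ℝ) ≤ Real.log m := Real.log_le_log (by linarith) hmm
    gcongr
  · rw [hoN]
    refine h5 k1 k2 (le_trans ?_ k3)
    exact mul_le_mul_of_nonneg_right hmm (Real.rpow_nonneg (by linarith) _)

lemma PC.cj {K N0 ε : ℝ} {m : ℕ} {f d : Ideal R} {θ χ : Ideal R → ℂ} {e : ℕ}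
    (h : PC K N0 ε m f d (fun I => (starRingEnd ℂ) (θ I)) (fun I => (starRingEnd ℂ) (χ I)) e) :
    PC K N0 ε m f d θ χ e := by
  obtain ⟨F, h1, h2, h3, h4, h5⟩ := h
  have hm : (m : ℂ) = ((m : ℝ) : ℂ) := by push_cast; rfl
  have ho := cj_order h1 (m : ℝ) (by rw [← hm]; exact h3)
  rw [← hm] at ho
  have hoN : analyticOrderNatAt (Pool.Agent.Y690.cj F) (m : ℂ) = analyticOrderNatAt F (m : ℂ) := by
    rw [analyticOrderNatAt, analyticOrderNatAt, ho]
  refine ⟨Pool.Agent.Y690.cj F, cj_diff h1, fun z hz => ?_, by rw [ho]; exact h3,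
    by rw [hoN]; exact h4, by rw [hoN]; exact h5⟩
  have h6 := (h2 ((starRingEnd ℂ) z) (by rw [Complex.conj_re]; exact hz)).map (starRingEnd ℂ)
    Complex.continuous_conj
  have h7 : (fun I : Ideal R => θ I * χ I * (nm I : ℂ) ^ (-z)) = (starRingEnd ℂ) ∘
      (fun I : Ideal R => (starRingEnd ℂ) (θ I) * (starRingEnd ℂ) (χ I) *
        (nm I : ℂ) ^ (-(starRingEnd ℂ) z)) := by
    funext I
    simp only [Function.comp]
    rw [map_mul, map_mul, Complex.conj_conj, Complex.conj_conj]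
    congr 1
    rw [← map_neg, Complex.cpow_conj _ _ (by
      rw [Complex.arg_ofReal_of_nonneg (by rw [nm]; positivity)]
      exact Real.pi_pos.ne), Complex.conj_conj, Complex.conj_ofReal]
  rw [h7]
  exact h6

theorem pair (hb : H_BASIC) (hcls : H_CLS) (hcnt : H_CNT) (hfpr : H_FPR) (hfp : H_FP)
    (hdec : H_DEC) (hgauss : H_GAUSS) (htheta : H_THETA) (hafe : H_AFE) (hprod : H_PROD)
    (hfinb : Pool.Agent.Y683.FINB)
    (hR : QR R ω) (ε : ℝ) (hε : 0 < ε) :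
    ∃ K N0 : ℝ, 0 < K ∧ ∀ (m a b : ℕ) (f : Ideal R) (θ : Ideal R → ℂ), 1 ≤ m →
      a + b = 2 * m - 1 → HT a b f θ →
      ∀ (c : Ideal R) (γ : R), c ≠ ⊥ → Gen c γ → IsCoprime f c → ∀ (d : Ideal R) (χ : Ideal R → ℂ),
      d ∣ c → HC 0 d χ → PC K N0 ε m f d θ χ (orderOf (χ (sp γ))) := by
  obtain ⟨K, N0, hK, h⟩ := pair0 hb hcls hcnt hfpr hfp hdec hgauss htheta hafe hprod hfinb hR ε hε
  refine ⟨K, N0, hK, ?_⟩
  have case1 : ∀ (m a b : ℕ) (f : Ideal R) (θ : Ideal R → ℂ), 1 ≤ m →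
      a + b = 2 * m - 1 → b < a → HT a b f θ →
      ∀ (c : Ideal R) (γ : R), c ≠ ⊥ → Gen c γ → IsCoprime f c → ∀ (d : Ideal R) (χ : Ideal R → ℂ),
      d ∣ c → HC 0 d χ → PC K N0 ε m f d θ χ (orderOf (χ (sp γ))) := by
    intro m a b f θ hm hab hba hθ c γ hc hγ hfc d χ hdc hχ
    have hbm : b < m := by omega
    have h1 := hθ.red hb hR hba.le
    have h2 : a - b = 2 * (m - b) - 1 := by omega
    rw [h2] at h1
    exact (h (m - b) f _ (by omega) h1 c γ hc hγ hfc d χ hdc hχ).shift hb hR hK hbm hθ.ne hχ.ne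
      ((hθ.zero ⊥).2 (Or.inl rfl))
  intro m a b f θ hm hab hθ c γ hc hγ hfc d χ hdc hχ
  rcases lt_or_gt_of_ne (show b ≠ a by omega) with hlt | hlt
  · exact case1 m a b f θ hm hab hlt hθ c γ hc hγ hfc d χ hdc hχ
  · have h1 := case1 m b a f _ hm (by omega) hlt hθ.conj c γ hc hγ hfc d _ hdc (hc_conj hχ)
    have h2 : orderOf ((starRingEnd ℂ) (χ (sp γ))) = orderOf (χ (sp γ)) :=
      orderOf_injective (starRingEnd ℂ).toMonoidHom (starRingEnd ℂ).injective _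
    rw [h2] at h1
    exact h1.cj

end Pool.Agent.Y690
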