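import Mathlib

/-!
# The Euler product of a completely multiplicative function on the ideals of a Dedekind domain
-/

set_option autoImplicit false

open Filter Topology IsDedekindDomain

namespace Pool.Agent.Y690

variable {R : Type*} [CommRing R] [IsDedekindDomain R]

/-- completely multiplicative functions on the ideals, `0` at the zero ideal -/
structure CM (g : Ideal R → ℂ) : Prop where
  bot : g ⊥ = 0
  top : g ⊤ = 1
  mul : ∀ I J : Ideal R, g (I * J) = g I * g J

lemma CM.pow {g : Ideal R → ℂ} (h : CM g) (I : Ideal R) (n : ℕ) : g (I ^ n) = g I ^ n := by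
  induction n with
  | zero => rw [pow_zero, pow_zero, Ideal.one_eq_top, h.top]
  | succ n ih => rw [pow_succ, h.mul, ih, pow_succ]

/-- the nonzero ideals all of whose prime factors are in `T` -/
def ST (T : Finset (HeightOneSpectrum R)) : Set (Ideal R) :=
  {I | I ≠ ⊥ ∧ ∀ v : HeightOneSpectrum R, v.asIdeal ∣ I → v ∈ T}

lemma prime_v (v : HeightOneSpectrum R) : Prime v.asIdeal := v.prime

lemma pow_inj (v : HeightOneSpectrum R) : Function.Injective (fun n : ℕ => v.asIdeal ^ n) := by
  intro a b h
  have h' : v.asIdeal ^ a = v.asIdeal ^ b := h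
  by_contra hne
  have key : ∀ a b : ℕ, a < b → v.asIdeal ^ a = v.asIdeal ^ b → False := by
    intro a b hab h
    obtain ⟨c, rfl⟩ := Nat.exists_eq_add_of_lt hab
    have h1 : v.asIdeal ^ a * 1 = v.asIdeal ^ a * v.asIdeal ^ (c + 1) := by
      rw [mul_one, ← pow_add, h]
      congr 1
    have h0 : v.asIdeal ^ a ≠ 0 := pow_ne_zero _ (prime_v v).ne_zero
    have h2 := mul_left_cancel₀ h0 h1
    have h3 : IsUnit v.asIdeal := by
      refine isUnit_of_dvd_one ?_
      rw [h2]
      exact dvd_pow_self _ (by omega)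
    exact (prime_v v).not_unit h3
  rcases lt_or_gt_of_ne hne with h1 | h1
  · exact key a b h1 h'
  · exact key b a h1 h'.symm

lemma norm_lt {g : Ideal R → ℂ} (h : CM g) (hs : Summable fun I => ‖g I‖)
    (v : HeightOneSpectrum R) : ‖g v.asIdeal‖ < 1 := by
  have h1 : Summable (fun n : ℕ => ‖g v.asIdeal‖ ^ n) := by
    refine (hs.comp_injective (pow_inj v)).congr fun n => ?_
    simp only [Function.comp]
    rw [h.pow, norm_pow]
  have h2 := summable_geometric_iff_norm_lt_one.1 h1
  rwa [norm_norm] at h2

/-- adding one prime -/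
noncomputable def eqv [DecidableEq (HeightOneSpectrum R)] (T : Finset (HeightOneSpectrum R))
    (v : HeightOneSpectrum R) (hv : v ∉ T) : ℕ × ST T ≃ ST (insert v T) :=
  Equiv.ofBijective (fun x => ⟨v.asIdeal ^ x.1 * (x.2 : Ideal R), by
    refine ⟨mul_ne_zero (pow_ne_zero _ (prime_v v).ne_zero) x.2.2.1, fun w hw => ?_⟩
    rcases (prime_v w).dvd_or_dvd hw with h | h
    · have h1 := (prime_v w).dvd_of_dvd_pow h
      have h2 : w.asIdeal = v.asIdeal :=
        associated_iff_eq.1 ((prime_v w).associated_of_dvd (prime_v v) h1)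
      rw [HeightOneSpectrum.ext h2]
      exact Finset.mem_insert_self _ _
    · exact Finset.mem_insert_of_mem (x.2.2.2 w h)⟩) (by
    constructor
    · rintro ⟨a, I, hI⟩ ⟨b, J, hJ⟩ h
      have h' : v.asIdeal ^ a * I = v.asIdeal ^ b * J := congrArg Subtype.val h
      have hvI : ¬ v.asIdeal ∣ I := fun hd => hv (hI.2 v hd)
      have hvJ : ¬ v.asIdeal ∣ J := fun hd => hv (hJ.2 v hd)
      have h0 : ∀ n : ℕ, v.asIdeal ^ n ≠ 0 := fun n => pow_ne_zero _ (prime_v v).ne_zero
      have hab : a = b := by
        have key : ∀ (a b : ℕ) (I J : Ideal R), ¬ v.asIdeal ∣ I →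
            v.asIdeal ^ a * I = v.asIdeal ^ b * J → b ≤ a := by
          intro a b I J hI h
          by_contra hlt
          obtain ⟨c, rfl⟩ := Nat.exists_eq_add_of_lt (not_le.1 hlt)
          apply hI
          rw [show a + c + 1 = a + (c + 1) by ring, pow_add, mul_assoc] at h
          have h2 := mul_left_cancel₀ (h0 a) h
          rw [h2, pow_succ, mul_assoc]
          exact Dvd.dvd.mul_left (dvd_mul_right _ _) _
        exact le_antisymm (key b a J I hvJ h'.symm) (key a b I J hvI h')
      subst hab
      have h2 := mul_left_cancel₀ (h0 a) h'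
      subst h2
      rfl
    · rintro ⟨I, hI0, hI⟩
      obtain ⟨J, hJ, hvJ⟩ := (FiniteMultiplicity.of_prime_left (prime_v v)
        hI0).exists_eq_pow_mul_and_not_dvd
      have hJ0 : J ≠ ⊥ := by
        rintro rfl
        exact hvJ (dvd_zero _)
      refine ⟨(multiplicity v.asIdeal I, ⟨J, hJ0, fun w hw => ?_⟩), Subtype.ext hJ.symm⟩
      have h1 : w.asIdeal ∣ I := by
        rw [hJ]
        exact Dvd.dvd.mul_left hw _
      rcases Finset.mem_insert.1 (hI w h1) with h | h
      · subst h
        exact absurd hw hvJ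
      · exact h)

lemma hasSum_ST {g : Ideal R → ℂ} (h : CM g) (hs : Summable fun I => ‖g I‖)
    (T : Finset (HeightOneSpectrum R)) :
    HasSum (fun I : ST T => g I) (∏ v ∈ T, (1 - g v.asIdeal)⁻¹) := by
  classical
  induction T using Finset.induction_on with
  | empty =>
    rw [Finset.prod_empty]
    have h1 : ∀ I : (ST (∅ : Finset (HeightOneSpectrum R)) : Set (Ideal R)), (I : Ideal R) = ⊤ := by
      rintro ⟨I, hI0, hI⟩
      by_contra hne
      obtain ⟨M, hM, hIM⟩ := Ideal.exists_le_maximal I hne
      have hM0 : M ≠ ⊥ := by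
        rintro rfl
        exact hI0 (le_bot_iff.1 hIM)
      exact absurd (hI ⟨M, hM.isPrime, hM0⟩ (Ideal.dvd_iff_le.2 hIM)) (Finset.notMem_empty _)
    have htop : (⊤ : Ideal R) ∈ ST (∅ : Finset (HeightOneSpectrum R)) := by
      refine ⟨top_ne_bot, fun v hv => ?_⟩
      exfalso
      have h2 := Ideal.dvd_iff_le.1 hv
      exact v.isPrime.ne_top (top_le_iff.1 h2)
    have h2 : HasSum (fun I : ST (∅ : Finset (HeightOneSpectrum R)) => g I)
        (g (⟨⊤, htop⟩ : ST (∅ : Finset (HeightOneSpectrum R)))) := by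
      apply hasSum_single
      intro I hI
      exact absurd (Subtype.ext (h1 I)) hI
    rwa [h.top] at h2
  | insert v T hv ih =>
    rw [Finset.prod_insert hv]
    have hlt := norm_lt h hs v
    have h1 : HasSum (fun n : ℕ => g v.asIdeal ^ n) (1 - g v.asIdeal)⁻¹ :=
      hasSum_geometric_of_norm_lt_one hlt
    have h2 : Summable fun x : ℕ × ST T => g v.asIdeal ^ x.1 * g x.2 := by
      refine summable_mul_of_summable_norm (f := fun n : ℕ => g v.asIdeal ^ n)
        (g := fun I : ST T => g I) ?_ ?_
      · simp only [norm_pow]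
        exact summable_geometric_of_lt_one (norm_nonneg _) hlt
      · exact hs.comp_injective Subtype.val_injective
    have h3 := h1.mul ih h2
    refine (Equiv.hasSum_iff (eqv T v hv)).1 ?_
    have h4 : ((fun I : ST (insert v T) => g I) ∘ (eqv T v hv)) =
        fun x : ℕ × ST T => g v.asIdeal ^ x.1 * g x.2 := by
      funext x
      show g (v.asIdeal ^ x.1 * (x.2 : Ideal R)) = _
      rw [h.mul, h.pow]
    rw [h4]
    exact h3

/-- **Euler product** -/
theorem hasProd_ideal {g : Ideal R → ℂ} (h : CM g) (hs : Summable fun I => ‖g I‖) :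
    HasProd (fun v : HeightOneSpectrum R => (1 - g v.asIdeal)⁻¹) (∑' I, g I) := by
  classical
  have h1 : ∀ T : Finset (HeightOneSpectrum R), ∏ v ∈ T, (1 - g v.asIdeal)⁻¹ =
      ∑' I, (ST T).indicator g I := by
    intro T
    rw [← (hasSum_ST h hs T).tsum_eq, ← tsum_subtype]
  have h2 : Tendsto (fun T : Finset (HeightOneSpectrum R) => ∑' I, (ST T).indicator g I) atTop
      (𝓝 (∑' I, g I)) := by
    refine tendsto_tsum_of_dominated_convergence hs (fun I => ?_) ?_
    · by_cases hI : I = ⊥
      · subst hI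
        have : (fun T : Finset (HeightOneSpectrum R) => (ST T).indicator g ⊥) = fun _ => g ⊥ := by
          funext T
          rw [Set.indicator_apply, h.bot, ite_self]
        rw [this]
        exact tendsto_const_nhds
      · have hfin : {v : HeightOneSpectrum R | v.asIdeal ∣ I}.Finite :=
          Ideal.finite_factors (show I ≠ 0 from hI)
        refine tendsto_const_nhds.congr' ?_
        filter_upwards [eventually_ge_atTop hfin.toFinset] with T hT
        rw [Set.indicator_of_mem]
        exact ⟨hI, fun v hv => hT (hfin.mem_toFinset.2 hv)⟩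
    · refine Eventually.of_forall fun T I => ?_
      exact norm_indicator_le_norm_self g I
  have h3 : Tendsto (fun T : Finset (HeightOneSpectrum R) => ∏ v ∈ T, (1 - g v.asIdeal)⁻¹) atTop
      (𝓝 (∑' I, g I)) := h2.congr fun T => (h1 T).symm
  exact h3

end Pool.Agent.Y690
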