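import Pool.Agent.W192.HK.Parts

/-!
# Ray class characters of conductor dividing an ideal with cyclic unit group
-/

set_option autoImplicit false

open Complex

namespace Pool.Agent.Y690

open Pool.Agent.W192.HK

variable {R : Subring ℂ} {ω : ℂ}

/-- the primitive ray class characters of conductor dividing `c` -/
def XC (c : Ideal R) : Set (Ideal R → ℂ) := {χ | ∃ d : Ideal R, d ∣ c ∧ HC 0 d χ}

lemma rc_of_hc {c : Ideal R} {χ : Ideal R → ℂ} (h : HC 0 c χ) : RC c χ :=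
  ⟨h.ne, h.mul, h.zero, fun α h1 h2 => by rw [h.princ α h1 h2, pow_zero]⟩

lemma cop_iff {α : R} {c : Ideal R} : IsCoprime (sp α) c ↔ ∃ x : R, α * x - 1 ∈ c := by
  rw [Ideal.isCoprime_iff_exists]
  constructor
  · rintro ⟨i, hi, j, hj, h⟩
    obtain ⟨x, rfl⟩ := Ideal.mem_span_singleton.1 hi
    refine ⟨x, ?_⟩
    have : α * x - 1 = -j := by rw [← h]; ring
    rw [this]
    exact c.neg_mem hj
  · rintro ⟨x, hx⟩
    refine ⟨α * x, Ideal.mem_span_singleton.2 (dvd_mul_right _ _), 1 - α * x, ?_, by ring⟩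
    have : 1 - α * x = -(α * x - 1) := by ring
    rw [this]
    exact c.neg_mem hx

lemma cop_congr {α β : R} {c : Ideal R} (h : α - β ∈ c) :
    IsCoprime (sp α) c ↔ IsCoprime (sp β) c := by
  rw [cop_iff, cop_iff]
  constructor
  · rintro ⟨x, hx⟩
    refine ⟨x, ?_⟩
    have : β * x - 1 = (α * x - 1) - (α - β) * x := by ring
    rw [this]
    exact c.sub_mem hx (c.mul_mem_right _ h)
  · rintro ⟨x, hx⟩
    refine ⟨x, ?_⟩
    have : α * x - 1 = (β * x - 1) + (α - β) * x := by ring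
    rw [this]
    exact c.add_mem hx (c.mul_mem_right _ h)

lemma cop_mono {I c d : Ideal R} (h : d ∣ c) (hI : IsCoprime I c) : IsCoprime I d := by
  rw [Ideal.isCoprime_iff_exists] at hI ⊢
  obtain ⟨i, hi, j, hj, e⟩ := hI
  exact ⟨i, hi, j, Ideal.le_of_dvd h hj, e⟩

lemma sp_mul (α β : R) : sp (α * β) = sp α * sp β :=
  (Ideal.span_singleton_mul_span_singleton α β).symm

lemma sp_pow (α : R) (n : ℕ) : sp (α ^ n) = sp α ^ n := (Ideal.span_singleton_pow α n).symm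

lemma hc_top {n : ℕ} {c : Ideal R} {χ : Ideal R → ℂ} (h : HC n c χ) : χ ⊤ = 1 := by
  have h1 := h.princ 1 one_ne_zero (by rw [sub_self]; exact c.zero_mem)
  rwa [sp, Ideal.span_singleton_one, Subring.coe_one, one_pow] at h1

lemma hc_pow {n : ℕ} {c : Ideal R} {χ : Ideal R → ℂ} (h : HC n c χ) (I : Ideal R) (k : ℕ) :
    χ (I ^ k) = χ I ^ k := by
  induction k with
  | zero => rw [pow_zero, pow_zero, Ideal.one_eq_top, hc_top h]
  | succ k ih => rw [pow_succ, h.mul, ih, pow_succ]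

lemma ne_zero_of_cop {α : R} {c : Ideal R} (hc : c ≠ ⊤) (h : IsCoprime (sp α) c) : α ≠ 0 := by
  rintro rfl
  apply hc
  rw [Ideal.isCoprime_iff_sup_eq] at h
  rwa [sp, Ideal.span_singleton_zero, bot_sup_eq] at h

/-- the part of `c` prime to `d` -/
lemma split (hb : H_BASIC) (hR : QR R ω) (d : Ideal R) :
    ∀ (N : ℕ) (c : Ideal R), c ≠ ⊥ → nm c ≤ N → ∃ e : Ideal R, IsCoprime e d ∧
      ∀ I : Ideal R, IsCoprime I d → IsCoprime I e → IsCoprime I c := by
  obtain ⟨b1, b2, b3, b4, b5, b6, b7, -⟩ := hb R ω hR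
  have := hR.ded
  intro N
  induction N with
  | zero =>
    intro c hc hN
    have := b3 c hc
    exfalso
    push_cast at hN
    linarith
  | succ N ih =>
    intro c hc hN
    by_cases hcd : IsCoprime c d
    · exact ⟨c, hcd, fun I _ h => h⟩
    · set g : Ideal R := c ⊔ d with hg
      have hg1 : g ≠ ⊤ := fun h => hcd (Ideal.isCoprime_iff_sup_eq.2 h)
      have hgc : g ∣ c := Ideal.dvd_iff_le.2 le_sup_left
      obtain ⟨c', hc'⟩ := hgc
      have hc0 : c' ≠ ⊥ := by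
        rintro rfl
        apply hc
        rw [hc', Ideal.mul_bot]
      have hg0 : g ≠ ⊥ := by
        intro h
        apply hc
        rw [hc', h, Ideal.bot_mul]
      have hgn : 2 ≤ nm g := by
        have h1 := b3 g hg0
        have h2 : nm g ≠ 1 := fun h => hg1 ((b7 g).1 h)
        rw [nm] at h1 h2 ⊢
        have h3 : 1 ≤ Nat.card (R ⧸ g) := by exact_mod_cast h1
        have h4 : Nat.card (R ⧸ g) ≠ 1 := by exact_mod_cast h2
        have h5 : 2 ≤ Nat.card (R ⧸ g) := by omega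
        exact_mod_cast h5
      have hn : nm c' ≤ N := by
        have h1 : nm c = nm g * nm c' := (congrArg nm hc').trans (b4 g c')
        have h2 := b3 c' hc0
        push_cast at hN
        nlinarith
      obtain ⟨e, he, hI⟩ := ih c' hc0 hn
      refine ⟨e, he, fun I h1 h2 => ?_⟩
      rw [hc']
      refine IsCoprime.mul_right ?_ (hI I h1 h2)
      exact cop_mono (Ideal.dvd_iff_le.2 le_sup_right) h1

/-- units lift -/
lemma lift_cop (hb : H_BASIC) (hR : QR R ω) {c d : Ideal R} (hc : c ≠ ⊥) {α : R}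
    (hα : α ≠ 0) (h : IsCoprime (sp α) d) :
    ∃ β : R, β ≠ 0 ∧ IsCoprime (sp β) c ∧ β - α ∈ d := by
  by_cases hct : c = ⊤
  · exact ⟨α, hα, by rw [hct, Ideal.isCoprime_iff_sup_eq]; exact sup_top_eq _, by
      rw [sub_self]; exact d.zero_mem⟩
  obtain ⟨e, he, hI⟩ := split hb hR d (Nat.card (R ⧸ c)) c hc le_rfl
  obtain ⟨y, hy, x, hx, hxy⟩ := Ideal.isCoprime_iff_exists.1 he
  have h1 : α * y + x - α ∈ d := by
    have : α * y + x - α = x - α * x := by
      have : y = 1 - x := by rw [← hxy]; ring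
      rw [this]; ring
    rw [this]
    exact d.sub_mem hx (d.mul_mem_left _ hx)
  have h2 : α * y + x - 1 ∈ e := by
    have : α * y + x - 1 = α * y - y := by
      have : x = 1 - y := by rw [← hxy]; ring
      rw [this]; ring
    rw [this]
    exact e.sub_mem (e.mul_mem_left _ hy) hy
  have h3 : IsCoprime (sp (α * y + x)) c := by
    refine hI _ ((cop_congr h1).2 h) ((cop_congr h2).2 ?_)
    rw [Ideal.isCoprime_iff_sup_eq, sp, Ideal.span_singleton_one]
    exact top_sup_eq _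
  exact ⟨_, ne_zero_of_cop hct h3, h3, h1⟩

/-- `γ` generates the units modulo `c` -/
structure Gen (c : Ideal R) (γ : R) : Prop where
  ne : γ ≠ 0
  cop : IsCoprime (sp γ) c
  gen : ∀ α : R, IsCoprime (sp α) c → ∃ n : ℕ, α - γ ^ n ∈ c

lemma gen_of_cyc (hb : H_BASIC) (hR : QR R ω) {c : Ideal R} (hc : c ≠ ⊥)
    (hcyc : IsCyclic (R ⧸ c)ˣ) : ∃ γ : R, Gen c γ := by
  by_cases hct : c = ⊤
  · refine ⟨1, one_ne_zero, ?_, fun α _ => ⟨0, by rw [hct]; exact Submodule.mem_top⟩⟩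
    rw [hct, Ideal.isCoprime_iff_sup_eq]
    exact sup_top_eq _
  obtain ⟨b1, -⟩ := hb R ω hR
  have := b1 c hc
  obtain ⟨u, hu⟩ := hcyc.exists_generator
  obtain ⟨γ, hγ⟩ := Ideal.Quotient.mk_surjective (u : R ⧸ c)
  have hcop : IsCoprime (sp γ) c := by
    rw [cop_iff]
    obtain ⟨x, hx⟩ := Ideal.Quotient.mk_surjective ((u⁻¹ : (R ⧸ c)ˣ) : R ⧸ c)
    refine ⟨x, ?_⟩
    rw [← Ideal.Quotient.eq, map_mul, hγ, hx, map_one, Units.mul_inv]
  refine ⟨γ, ne_zero_of_cop hct hcop, hcop, fun α hα => ?_⟩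
  obtain ⟨x, hx⟩ := cop_iff.1 hα
  have h1 : Ideal.Quotient.mk c α * Ideal.Quotient.mk c x = 1 := by
    rw [← map_mul, ← map_one (Ideal.Quotient.mk c), Ideal.Quotient.eq]
    exact hx
  set v : (R ⧸ c)ˣ := ⟨Ideal.Quotient.mk c α, Ideal.Quotient.mk c x, h1, by rw [mul_comm]; exact h1⟩
    with hv
  have h2 : v ∈ Submonoid.powers u := by
    have h3 := hu v
    rwa [← mem_powers_iff_mem_zpowers] at h3
  obtain ⟨n, hn⟩ := h2
  refine ⟨n, ?_⟩
  have hn' : u ^ n = v := hn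
  rw [← Ideal.Quotient.eq, map_pow, hγ, ← Units.val_pow_eq_pow_val, hn']

lemma Gen.dvd (hb : H_BASIC) (hR : QR R ω) {c d : Ideal R} {γ : R} (hγ : Gen c γ) (hc : c ≠ ⊥)
    (hdc : d ∣ c) : Gen d γ := by
  refine ⟨hγ.ne, cop_mono hdc hγ.cop, fun α hα => ?_⟩
  by_cases hdt : d = ⊤
  · exact ⟨0, by rw [hdt]; exact Submodule.mem_top⟩
  obtain ⟨β, -, h1, h2⟩ := lift_cop hb hR hc (ne_zero_of_cop hdt hα) hα
  obtain ⟨n, hn⟩ := hγ.gen β h1
  refine ⟨n, ?_⟩
  have : α - γ ^ n = (β - γ ^ n) - (β - α) := by ring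
  rw [this]
  exact d.sub_mem (Ideal.le_of_dvd hdc hn) h2

lemma chi_per (hfpr : H_FPR) (hR : QR R ω) {c d : Ideal R} (hdc : d ∣ c) {χ : Ideal R → ℂ}
    (hχ : HC 0 d χ) {α β : R} (hα : α ≠ 0) (hβ : β ≠ 0) (h : α - β ∈ c) :
    χ (sp α) = χ (sp β) :=
  (hfpr R ω hR d χ (rc_of_hc hχ)).1 α β hα hβ (Ideal.le_of_dvd hdc h)

lemma chi_gen (hfpr : H_FPR) (hR : QR R ω) {c d : Ideal R} (hdc : d ∣ c) {χ : Ideal R → ℂ}
    (hχ : HC 0 d χ) {γ : R} (hγ : Gen c γ) {α : R} (hα : α ≠ 0) {n : ℕ} (h : α - γ ^ n ∈ c) :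
    χ (sp α) = χ (sp γ) ^ n := by
  rw [chi_per hfpr hR hdc hχ hα (pow_ne_zero n hγ.ne) h, sp_pow, hc_pow hχ]

lemma chi_ne {d : Ideal R} {χ : Ideal R → ℂ} (hχ : HC 0 d χ) {I : Ideal R} (hI : I ≠ ⊥)
    (h : IsCoprime I d) : χ I ≠ 0 := by
  intro h0
  rcases (hχ.zero I).1 h0 with h1 | h1
  · exact hI h1
  · exact h1 h

lemma sp_ne {α : R} (hα : α ≠ 0) : sp α ≠ (⊥ : Ideal R) := by
  intro h
  exact hα (Ideal.span_singleton_eq_bot.1 h)

/-- the values at `γ` and at the class representatives determine the character -/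
lemma chi_det (hb : H_BASIC) (hfpr : H_FPR) (hR : QR R ω) {c : Ideal R} (hc : c ≠ ⊥) {γ : R}
    (hγ : Gen c γ) {s : Finset (Ideal R)} (hs : Cs s) (hcp : ∀ b ∈ s, IsCoprime b c)
    {χ ψ : Ideal R → ℂ} (hχ : χ ∈ XC c) (hψ : ψ ∈ XC c) (h1 : χ (sp γ) = ψ (sp γ))
    (h2 : ∀ b ∈ s, χ b = ψ b) : χ = ψ := by
  obtain ⟨d, hdc, hχ⟩ := hχ
  obtain ⟨e, hec, hψ⟩ := hψ
  have := hR.ded
  -- principal ideals prime to `c`
  have hP : ∀ α : R, α ≠ 0 → IsCoprime (sp α) c → χ (sp α) = ψ (sp α) := by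
    intro α hα h
    obtain ⟨n, hn⟩ := hγ.gen α h
    rw [chi_gen hfpr hR hdc hχ hγ hα hn, chi_gen hfpr hR hec hψ hγ hα hn, h1]
  -- the conductors
  have key : ∀ (d e : Ideal R), d ∣ c → e ∣ c → ∀ χ ψ : Ideal R → ℂ, HC 0 d χ → HC 0 e ψ →
      (∀ α : R, α ≠ 0 → IsCoprime (sp α) c → χ (sp α) = ψ (sp α)) → d ⊔ e = d := by
    intro d e hdc hec χ ψ hχ hψ hP
    by_contra hne
    have hlt : d < d ⊔ e := lt_of_le_of_ne le_sup_left (fun h => hne h.symm)
    obtain ⟨α, hα0, hα1, hα2, hα3⟩ := hχ.prim _ hlt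
    apply hα3
    rw [pow_zero]
    obtain ⟨x, hx, y, hy, hxy⟩ := Submodule.mem_sup.1 hα1
    -- `1 + y` is `α` modulo `d` and `1` modulo `e`
    have e1 : (1 + y) - α ∈ d := by
      have : (1 + y) - α = -x := by
        have : α = x + y + 1 := by rw [hxy]; ring
        rw [this]; ring
      rw [this]; exact d.neg_mem hx
    have e2 : (1 + y) - 1 ∈ e := by rw [add_sub_cancel_left]; exact hy
    -- modify it modulo the intersection
    set l : Ideal R := d ⊓ e with hl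
    have hlc : l ∣ c := by
      rw [Ideal.dvd_iff_le]
      exact le_inf (Ideal.le_of_dvd hdc) (Ideal.le_of_dvd hec)
    by_cases hlt : l = ⊤
    · have hd : d = ⊤ := top_le_iff.1 (hlt ▸ inf_le_left)
      exact absurd hlt (by
        intro _
        apply hne
        rw [hd]
        exact top_sup_eq _)
    have hcop : IsCoprime (sp (1 + y)) l := by
      have h3 : IsCoprime (sp (1 + y)) (d * e) := by
        refine IsCoprime.mul_right ((cop_congr e1).2 hα2) ((cop_congr e2).2 ?_)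
        rw [Ideal.isCoprime_iff_sup_eq, sp, Ideal.span_singleton_one]
        exact top_sup_eq _
      rw [Ideal.isCoprime_iff_exists] at h3 ⊢
      obtain ⟨i, hi, j, hj, h⟩ := h3
      exact ⟨i, hi, j, Ideal.mul_le_inf hj, h⟩
    obtain ⟨β, hβ0, hβc, hβl⟩ := lift_cop hb hR hc (ne_zero_of_cop hlt hcop) hcop
    have e3 : β - α ∈ d := by
      have : β - α = (β - (1 + y)) + ((1 + y) - α) := by ring
      rw [this]
      exact d.add_mem (inf_le_left (a := d) (b := e) hβl) e1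
    have e4 : β - 1 ∈ e := by
      have : β - 1 = (β - (1 + y)) + ((1 + y) - 1) := by ring
      rw [this]
      exact e.add_mem (inf_le_right (a := d) (b := e) hβl) e2
    rw [← chi_per hfpr hR (dvd_refl d) hχ hβ0 hα0 e3, hP β hβ0 hβc, hψ.princ β hβ0 e4, pow_zero]
  have hde : d = e := by
    have k1 := key d e hdc hec χ ψ hχ hψ hP
    have k2 := key e d hec hdc ψ χ hψ hχ (fun α h1 h2 => (hP α h1 h2).symm)
    rw [← k1, sup_comm, k2]
  subst hde
  funext I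
  by_cases hI : I = ⊥ ∨ ¬ IsCoprime I d
  · rw [(hχ.zero I).2 hI, (hψ.zero I).2 hI]
  · push Not at hI
    obtain ⟨b, ⟨hbs, α, hα⟩, -⟩ := hs.uni I hI.1
    have hb0 := hs.ne b hbs
    have hα0 : α ≠ 0 := by
      rintro rfl
      rw [sp, Ideal.span_singleton_zero, Ideal.mul_eq_bot] at hα
      rcases hα with h | h
      · exact hI.1 h
      · exact hb0 h
    have hbd : IsCoprime b d := cop_mono hdc (hcp b hbs)
    have hαd : IsCoprime (sp α) d := by
      rw [← hα]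
      exact IsCoprime.mul_left hI.2 hbd
    obtain ⟨β, hβ0, hβc, hβd⟩ := lift_cop hb hR hc hα0 hαd
    have e1 : χ (sp α) = ψ (sp α) := by
      rw [← chi_per hfpr hR (dvd_refl d) hχ hβ0 hα0 hβd,
        ← chi_per hfpr hR (dvd_refl d) hψ hβ0 hα0 hβd]
      exact hP β hβ0 hβc
    rw [← hα, hχ.mul, hψ.mul, h2 b hbs] at e1
    exact mul_right_cancel₀ (chi_ne hψ hb0 hbd) e1

/-- few characters whose values at principal ideals have small order -/
lemma card_pow (hb : H_BASIC) (hfpr : H_FPR) (hR : QR R ω) {c : Ideal R} (hc : c ≠ ⊥) {γ : R}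
    (hγ : Gen c γ) {s : Finset (Ideal R)} (hs : Cs s) (hcp : ∀ b ∈ s, IsCoprime b c) {h : ℕ}
    (hh1 : 1 ≤ h) (hh : ∀ I : Ideal R, ∃ α : R, I ^ h = sp α) (d : ℕ) (hd : 0 < d) :
    {χ | χ ∈ XC c ∧ χ (sp γ) ^ d = 1}.Finite ∧
      Set.ncard {χ | χ ∈ XC c ∧ χ (sp γ) ^ d = 1} ≤ d * h ^ s.card := by
  classical
  have hn : ∀ b : Ideal R, b ∈ s → ∃ n : ℕ, ∀ χ ∈ XC c, χ b ^ h = χ (sp γ) ^ n := by
    intro b hbs
    obtain ⟨β, hβ⟩ := hh b
    have hβ0 : β ≠ 0 := by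
      rintro rfl
      rw [sp, Ideal.span_singleton_zero] at hβ
      have := hR.ded
      have hh0 : h ≠ 0 := by omega
      exact hs.ne b hbs ((pow_eq_zero_iff hh0).1 hβ)
    have hβc : IsCoprime (sp β) c := by
      rw [← hβ]
      exact IsCoprime.pow_left (hcp b hbs)
    obtain ⟨n, hn⟩ := hγ.gen β hβc
    refine ⟨n, fun χ hχ => ?_⟩
    obtain ⟨e, hec, hχ⟩ := hχ
    rw [← hc_pow hχ, hβ, chi_gen hfpr hR hec hχ hγ hβ0 hn]
  choose! nb hnb using hn
  set T : Finset (ℂ × ({b // b ∈ s} → ℂ)) := (Polynomial.nthRootsFinset d (1 : ℂ)).biUnion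
    (fun z => (Fintype.piFinset (fun b : {b // b ∈ s} =>
      (Polynomial.nthRoots h (z ^ nb b)).toFinset)).image (fun f => (z, f))) with hT
  have hTc : T.card ≤ d * h ^ s.card := by
    refine Finset.card_biUnion_le.trans ?_
    have h1 : ∀ z ∈ Polynomial.nthRootsFinset d (1 : ℂ),
        ((Fintype.piFinset (fun b : {b // b ∈ s} =>
          (Polynomial.nthRoots h (z ^ nb b)).toFinset)).image (fun f => (z, f))).card ≤
          h ^ s.card := by
      intro z _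
      refine Finset.card_image_le.trans ?_
      rw [Fintype.card_piFinset]
      refine (Finset.prod_le_prod' (g := fun _ => h) fun b _ => ?_).trans ?_
      · exact (Multiset.toFinset_card_le _).trans (Polynomial.card_nthRoots _ _)
      · rw [Finset.prod_const, Finset.card_univ, Fintype.card_coe]
    refine (Finset.sum_le_card_nsmul _ _ _ h1).trans ?_
    rw [smul_eq_mul, (Complex.isPrimitiveRoot_exp d hd.ne').card_nthRootsFinset]
  set Φ : (Ideal R → ℂ) → ℂ × ({b // b ∈ s} → ℂ) := fun χ => (χ (sp γ), fun b => χ b) with hΦ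
  have hmaps : ∀ χ ∈ {χ | χ ∈ XC c ∧ χ (sp γ) ^ d = 1}, Φ χ ∈ T := by
    rintro χ ⟨hχ, hχd⟩
    rw [hT, Finset.mem_biUnion]
    refine ⟨χ (sp γ), (Polynomial.mem_nthRootsFinset hd _).2 hχd, ?_⟩
    rw [Finset.mem_image]
    refine ⟨fun b => χ b, ?_, rfl⟩
    rw [Fintype.mem_piFinset]
    intro b
    rw [Multiset.mem_toFinset, Polynomial.mem_nthRoots (by omega)]
    exact hnb b b.2 χ hχ
  have hinj : Set.InjOn Φ {χ | χ ∈ XC c ∧ χ (sp γ) ^ d = 1} := by
    rintro χ ⟨hχ, -⟩ ψ ⟨hψ, -⟩ he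
    have e1 : χ (sp γ) = ψ (sp γ) := congrArg Prod.fst he
    have e2 : (fun b : {b // b ∈ s} => χ b.1) = fun b : {b // b ∈ s} => ψ b.1 :=
      congrArg Prod.snd he
    exact chi_det hb hfpr hR hc hγ hs hcp hχ hψ e1 (fun b hb => congrFun e2 ⟨b, hb⟩)
  have hfin : {χ | χ ∈ XC c ∧ χ (sp γ) ^ d = 1}.Finite :=
    Set.Finite.of_finite_image (T.finite_toSet.subset (by
      rintro _ ⟨χ, hχ, rfl⟩
      exact hmaps χ hχ)) hinj
  refine ⟨hfin, ?_⟩
  have h3 := Set.ncard_le_ncard_of_injOn Φ (s := {χ | χ ∈ XC c ∧ χ (sp γ) ^ d = 1})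
    (t := (T : Set (ℂ × ({b // b ∈ s} → ℂ)))) hmaps hinj T.finite_toSet
  rw [Set.ncard_coe_finset] at h3
  exact h3.trans hTc

end Pool.Agent.Y690
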