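import Pool.Agent.Y690.Pair

/-!
# The `L`-function of one Hecke character twisted by one ray class character, second version
-/

set_option autoImplicit false

open Complex Filter Topology

namespace Pool.Agent.Y690

open Pool.Agent.W192.HK Pool.Agent.TH936.CM

variable {R : Subring ℂ} {ω : ℂ}

/-- the exponent of `χ` on the principal ideals prime to `d` is at least `e` -/
def EB (d : Ideal R) (χ : Ideal R → ℂ) (e : ℕ) : Prop :=
  ∀ k : ℕ, 0 < k → (∀ α : R, α ≠ 0 → IsCoprime (sp α) d → χ (sp α) ^ k = 1) → e ≤ k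

lemma EB.conj {d : Ideal R} {χ : Ideal R → ℂ} {e : ℕ} (h : EB d χ e) :
    EB d (fun I => (starRingEnd ℂ) (χ I)) e := by
  intro k hk hα
  refine h k hk fun α h0 h1 => ?_
  have h2 := congrArg (starRingEnd ℂ) (hα α h0 h1)
  rwa [map_pow, Complex.conj_conj, map_one] at h2

theorem pairE0 (hb : H_BASIC) (hcls : H_CLS) (hcnt : H_CNT) (hfpr : H_FPR) (hfp : H_FP)
    (hdec : H_DEC) (hgauss : H_GAUSS) (htheta : H_THETA) (hafe : H_AFE) (hprod : H_PROD)
    (hfinb : Pool.Agent.Y683.FINB)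
    (hR : QR R ω) (ε : ℝ) (hε : 0 < ε) :
    ∃ K N0 : ℝ, 0 < K ∧ ∀ (m : ℕ) (f : Ideal R) (θ : Ideal R → ℂ), 1 ≤ m → HC (2 * m - 1) f θ →
      ∀ (d : Ideal R) (χ : Ideal R → ℂ), IsCoprime f d → HC 0 d χ → ∀ e : ℕ, EB d χ e →
      PC K N0 ε m f d θ χ e := by
  obtain ⟨K, hK, hord⟩ := ordU_le hb hfp hcnt hgauss htheta hcls hR
  obtain ⟨N0, hN0⟩ := Pool.Agent.Y683.nonvan hb hcls hcnt hfpr hfp hdec hafe hfinb hR ε hε
  refine ⟨K, N0, hK, fun m f θ hm hθ d χ hfd hχ E hE => ?_⟩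
  obtain ⟨b1, b2, b3, b4, b5, b6, b7, -⟩ := hb R ω hR
  have hH : HC (2 * m - 1) (f * d) (fun I => θ I * χ I) := hprod R ω hR _ f d θ χ hθ hχ hfd
  obtain ⟨h, hh1, hpr, hsys⟩ := hcls R ω hR
  obtain ⟨s, hh, μ, T, -, hS⟩ := hsys (f * d) hH.ne
  obtain ⟨F, hF1, hF2, -⟩ := hafe R ω hR m hm (f * d) _ hH s hh μ T hS
  obtain ⟨e, rfl⟩ : ∃ e, m = e + 1 := ⟨m - 1, by omega⟩
  have hm1 : 2 * (e + 1) - 1 = 2 * e + 1 := by omega
  obtain ⟨ho1, ho2⟩ := hord e (f * d) (fun I => θ I * χ I) (by rw [← hm1]; exact hH) F hF1 hF2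
  refine ⟨F, hF1, hF2, ho1, ?_, fun h1 h2 h3 => ?_⟩
  · rw [b4] at ho2
    exact ho2
  · rw [← b4] at h1 h2 h3
    have hde : ∀ k : ℕ, 0 < k → (∀ α : R, IsCoprime (sp α) (f * d) →
        fp (2 * (e + 1) - 1) (fun I => θ I * χ I) α ^ k = 1) → E ≤ k := by
      intro k hk hα
      refine hE k hk fun γ hγ0 hγd => ?_
      by_cases hdt : d = ⊤
      · have h4 : χ (sp γ) = 1 := by
          rw [hχ.princ γ hγ0 (by rw [hdt]; exact Submodule.mem_top), pow_zero]
        rw [h4, one_pow]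
      -- an element `1` modulo `f` and `γ` modulo `d`
      obtain ⟨x, hx, y, hy, hxy⟩ := Ideal.isCoprime_iff_exists.1 hfd
      set β : R := y + γ * x with hβ
      have h4 : β - 1 ∈ f := by
        have : β - 1 = γ * x - x := by rw [hβ, ← hxy]; ring
        rw [this]
        exact f.sub_mem (f.mul_mem_left _ hx) hx
      have h5 : β - γ ∈ d := by
        have : β - γ = y - γ * y := by
          have h6 : x = 1 - y := by rw [← hxy]; ring
          rw [hβ, h6]; ring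
        rw [this]
        exact d.sub_mem hy (d.mul_mem_left _ hy)
      have h6 : IsCoprime (sp β) d := (cop_congr h5).2 hγd
      have h7 : IsCoprime (sp β) (f * d) := by
        refine IsCoprime.mul_right ((cop_congr h4).2 ?_) h6
        rw [Ideal.isCoprime_iff_sup_eq, sp, Ideal.span_singleton_one]
        exact top_sup_eq _
      have hβ0 : β ≠ 0 := ne_zero_of_cop hdt h6
      have hβc : (β : ℂ) ≠ 0 := fun h => hβ0 (Subtype.ext h)
      have h8 := hα β h7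
      rw [fp] at h8
      have h9 : θ (sp β) * χ (sp β) / (β : ℂ) ^ (2 * (e + 1) - 1) = χ (sp γ) := by
        rw [hθ.princ β hβ0 h4, mul_div_assoc, mul_div_cancel₀ _ (pow_ne_zero _ hβc)]
        exact chi_per hfpr hR (dvd_refl d) hχ hβ0 hγ0 h5
      rwa [h9] at h8
    obtain ⟨F', hF'1, hF'2, hF'3⟩ := hN0 (e + 1) hm (f * d) _ hH h1 E hde h2 h3
    have hFF : F = F' := by
      refine entire_eq hF1 hF'1 (e + 4) fun z hz => ?_
      have hzz : ((e + 1 : ℕ) : ℝ) + 1 / 2 < z.re := by push_cast; linarith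
      exact (hF2 z hzz).unique (hF'2 z hzz)
    rw [hFF, analyticOrderNatAt]
    have h4 : analyticOrderAt F' ((e + 1 : ℕ) : ℂ) = 0 := by
      rw [(hF'1.analyticAt _).analyticOrderAt_eq_zero]
      exact hF'3
    rw [h4]
    rfl

theorem pairE (hb : H_BASIC) (hcls : H_CLS) (hcnt : H_CNT) (hfpr : H_FPR) (hfp : H_FP)
    (hdec : H_DEC) (hgauss : H_GAUSS) (htheta : H_THETA) (hafe : H_AFE) (hprod : H_PROD)
    (hfinb : Pool.Agent.Y683.FINB)
    (hR : QR R ω) (ε : ℝ) (hε : 0 < ε) :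
    ∃ K N0 : ℝ, 0 < K ∧ ∀ (m a b : ℕ) (f : Ideal R) (θ : Ideal R → ℂ), 1 ≤ m →
      a + b = 2 * m - 1 → HT a b f θ →
      ∀ (d : Ideal R) (χ : Ideal R → ℂ), IsCoprime f d → HC 0 d χ → ∀ e : ℕ, EB d χ e →
      PC K N0 ε m f d θ χ e := by
  obtain ⟨K, N0, hK, h⟩ := pairE0 hb hcls hcnt hfpr hfp hdec hgauss htheta hafe hprod hfinb hR ε hε
  refine ⟨K, N0, hK, ?_⟩
  have case1 : ∀ (m a b : ℕ) (f : Ideal R) (θ : Ideal R → ℂ), 1 ≤ m →
      a + b = 2 * m - 1 → b < a → HT a b f θ →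
      ∀ (d : Ideal R) (χ : Ideal R → ℂ), IsCoprime f d → HC 0 d χ → ∀ e : ℕ, EB d χ e →
      PC K N0 ε m f d θ χ e := by
    intro m a b f θ hm hab hba hθ d χ hfd hχ e he
    have hbm : b < m := by omega
    have h1 := hθ.red hb hR hba.le
    have h2 : a - b = 2 * (m - b) - 1 := by omega
    rw [h2] at h1
    exact (h (m - b) f _ (by omega) h1 d χ hfd hχ e he).shift hb hR hK hbm hθ.ne hχ.ne
      ((hθ.zero ⊥).2 (Or.inl rfl))
  intro m a b f θ hm hab hθ d χ hfd hχ e he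
  rcases lt_or_gt_of_ne (show b ≠ a by omega) with hlt | hlt
  · exact case1 m a b f θ hm hab hlt hθ d χ hfd hχ e he
  · exact (case1 m b a f _ hm (by omega) hlt hθ.conj d _ hfd (hc_conj hχ) e he.conj).cj

end Pool.Agent.Y690
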