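import Pool.Agent.Y690.RadO
import Pool.Agent.W216.CY.Div

/-!
# The number of small divisors of a number with given radical
-/

set_option autoImplicit false

open Finset

namespace Pool.Agent.Y690

lemma sum_div {δ : ℝ} (hδ : 0 < δ) (M : ℕ) : M ≠ 0 →
    ∑ n ∈ M.divisors, (n : ℝ) ^ (-δ) ≤ (1 / (1 - (2 : ℝ) ^ (-δ))) ^ M.primeFactors.card := by
  have h2 : (2 : ℝ) ^ (-δ) < 1 := Real.rpow_lt_one_of_one_lt_of_neg one_lt_two (by linarith)
  induction M using Nat.recOnPosPrimePosCoprime with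
  | prime_pow p k hp hk =>
    intro _
    rw [Nat.sum_divisors_prime_pow hp, Nat.primeFactors_prime_pow hk.ne' hp, Finset.card_singleton,
      pow_one]
    have hp0 : (0 : ℝ) < p := by exact_mod_cast hp.pos
    have hp2 : (2 : ℝ) ≤ p := by exact_mod_cast hp.two_le
    have h3 : (p : ℝ) ^ (-δ) ≤ (2 : ℝ) ^ (-δ) :=
      Real.rpow_le_rpow_of_nonpos (by norm_num) hp2 (by linarith)
    have h4 : 0 ≤ (p : ℝ) ^ (-δ) := by positivity
    have h5 : ∀ i ∈ range (k + 1), (((p ^ i : ℕ) : ℝ)) ^ (-δ) = ((p : ℝ) ^ (-δ)) ^ i := by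
      intro i _
      push_cast
      rw [← Real.rpow_natCast, ← Real.rpow_natCast, ← Real.rpow_mul hp0.le, ← Real.rpow_mul hp0.le]
      congr 1
      ring
    rw [Finset.sum_congr rfl h5]
    have h6 : ∑ i ∈ range (k + 1), ((p : ℝ) ^ (-δ)) ^ i ≤ (1 - (p : ℝ) ^ (-δ))⁻¹ := by
      have hs := summable_geometric_of_lt_one h4 (lt_of_le_of_lt h3 h2)
      rw [← tsum_geometric_of_lt_one h4 (lt_of_le_of_lt h3 h2)]
      exact hs.sum_le_tsum _ (fun i _ => by positivity)
    refine h6.trans ?_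
    rw [one_div]
    exact inv_anti₀ (by linarith) (by linarith)
  | zero => intro h; exact absurd rfl h
  | one => intro _; simp
  | coprime a b ha hb hab iha ihb =>
    intro _
    have hA : 0 ≤ 1 / (1 - (2 : ℝ) ^ (-δ)) := by
      have : 0 < 1 - (2 : ℝ) ^ (-δ) := by linarith
      positivity
    have h1 := iha (by omega)
    have h2 := ihb (by omega)
    have h0 : (a * b).divisors = (a.divisors ×ˢ b.divisors).image (fun p => p.1 * p.2) := by
      rw [Nat.divisors_mul, Finset.mul_def]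
    rw [h0, Finset.sum_image (hab.mul_injOn_divisors), hab.primeFactors_mul, Finset.card_union_of_disjoint hab.disjoint_primeFactors, pow_add]
    have h3 : ∑ x ∈ a.divisors ×ˢ b.divisors, ((x.1 * x.2 : ℕ) : ℝ) ^ (-δ) =
        (∑ x ∈ a.divisors, (x : ℝ) ^ (-δ)) * ∑ y ∈ b.divisors, (y : ℝ) ^ (-δ) := by
      rw [Finset.sum_mul_sum, Finset.sum_product]
      refine Finset.sum_congr rfl fun x _ => Finset.sum_congr rfl fun y _ => ?_
      push_cast
      rw [Real.mul_rpow (by positivity) (by positivity)]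
    rw [h3]
    exact mul_le_mul h1 h2 (Finset.sum_nonneg fun _ _ => by positivity) (by positivity)

lemma two_pow_le (M P : ℕ) (hP : P ≠ 0) (h : rd M ∣ P) :
    2 ^ M.primeFactors.card ≤ P.divisors.card := by
  classical
  rw [← Finset.card_powerset]
  refine Finset.card_le_card_of_injOn (fun S => ∏ p ∈ S, p) ?_ ?_
  · intro S hS
    have hS' := Finset.mem_powerset.1 hS
    rw [Finset.mem_coe, Nat.mem_divisors]
    exact ⟨(Finset.prod_dvd_prod_of_subset _ _ _ hS').trans h, hP⟩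
  · intro S hS T hT hST
    have hS' := Finset.mem_powerset.1 hS
    have hT' := Finset.mem_powerset.1 hT
    have h1 := Nat.primeFactors_prod (s := S) fun p hp => Nat.prime_of_mem_primeFactors (hS' hp)
    have h2 := Nat.primeFactors_prod (s := T) fun p hp => Nat.prime_of_mem_primeFactors (hT' hp)
    have h3 : ∏ p ∈ S, p = ∏ p ∈ T, p := hST
    rw [← h1, h3, h2]

/-- **Few small divisors.** -/
theorem small_div {δ : ℝ} (hδ : 0 < δ) : ∃ C : ℝ, 0 < C ∧ ∀ M P : ℕ, M ≠ 0 → P ≠ 0 → rd M ∣ P →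
    ∀ D : ℝ, 1 ≤ D → ((M.divisors.filter (fun n : ℕ => (n : ℝ) ≤ D)).card : ℝ) ≤
      C * (D * P) ^ δ := by
  have h2 : (2 : ℝ) ^ (-δ) < 1 := Real.rpow_lt_one_of_one_lt_of_neg one_lt_two (by linarith)
  have h2p : 0 < (2 : ℝ) ^ (-δ) := by positivity
  set A : ℝ := 1 / (1 - (2 : ℝ) ^ (-δ)) with hA
  have hA1 : 1 < A := by
    rw [hA, lt_div_iff₀ (by linarith)]; linarith
  set l : ℝ := Real.log A / Real.log 2 with hl
  have hlog2 : 0 < Real.log 2 := Real.log_pos (by norm_num)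
  have hl0 : 0 < l := div_pos (Real.log_pos hA1) hlog2
  obtain ⟨C, hC, hC1, -⟩ := Pool.Agent.W216.CY.t_div (δ / l) (by positivity)
  refine ⟨C ^ l, by positivity, fun M P hM hP hMP D hD => ?_⟩
  have hP1 : 1 ≤ P := Nat.one_le_iff_ne_zero.2 hP
  have hP0 : (0 : ℝ) < P := by exact_mod_cast hP1
  have e1 : ((M.divisors.filter (fun n : ℕ => (n : ℝ) ≤ D)).card : ℝ) ≤
      D ^ δ * ∑ n ∈ M.divisors, (n : ℝ) ^ (-δ) := by
    rw [Finset.mul_sum]
    calc ((M.divisors.filter (fun n : ℕ => (n : ℝ) ≤ D)).card : ℝ) =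
          ∑ n ∈ M.divisors.filter (fun n : ℕ => (n : ℝ) ≤ D), (1 : ℝ) := by simp
      _ ≤ ∑ n ∈ M.divisors.filter (fun n : ℕ => (n : ℝ) ≤ D), D ^ δ * (n : ℝ) ^ (-δ) := by
          refine Finset.sum_le_sum fun n hn => ?_
          obtain ⟨h3, h4⟩ := Finset.mem_filter.1 hn
          have h5 : (0 : ℝ) < n := by exact_mod_cast Nat.pos_of_mem_divisors h3
          rw [Real.rpow_neg h5.le, ← div_eq_mul_inv, ← Real.div_rpow (by linarith) h5.le]
          exact Real.one_le_rpow ((one_le_div h5).2 h4) hδ.le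
      _ ≤ ∑ n ∈ M.divisors, D ^ δ * (n : ℝ) ^ (-δ) :=
          Finset.sum_le_sum_of_subset_of_nonneg (Finset.filter_subset _ _)
            fun n _ _ => by positivity
  have e2 : A ^ M.primeFactors.card ≤ C ^ l * (P : ℝ) ^ δ := by
    have h3 : A = (2 : ℝ) ^ l := by
      rw [hl, Real.rpow_def_of_pos (by norm_num), mul_div_cancel₀ _ hlog2.ne', Real.exp_log
        (by linarith)]
    have h4 : A ^ M.primeFactors.card = ((2 : ℝ) ^ M.primeFactors.card) ^ l := by
      rw [h3, ← Real.rpow_natCast, ← Real.rpow_natCast, ← Real.rpow_mul (by norm_num),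
        ← Real.rpow_mul (by norm_num), mul_comm]
    have h5 : ((2 : ℝ) ^ M.primeFactors.card) ≤ C * (P : ℝ) ^ (δ / l) := by
      have h6 : ((2 : ℝ) ^ M.primeFactors.card) ≤ P.divisors.card := by
        exact_mod_cast two_pow_le M P hP hMP
      exact h6.trans (hC1 P hP1)
    rw [h4]
    calc ((2 : ℝ) ^ M.primeFactors.card) ^ l ≤ (C * (P : ℝ) ^ (δ / l)) ^ l :=
          Real.rpow_le_rpow (by positivity) h5 hl0.le
      _ = C ^ l * (P : ℝ) ^ δ := by
          rw [Real.mul_rpow hC.le (by positivity), ← Real.rpow_mul hP0.le, div_mul_cancel₀ _ hl0.ne']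
  calc _ ≤ D ^ δ * ∑ n ∈ M.divisors, (n : ℝ) ^ (-δ) := e1
    _ ≤ D ^ δ * (C ^ l * (P : ℝ) ^ δ) := by
        refine mul_le_mul_of_nonneg_left ((sum_div hδ M hM).trans e2) (by positivity)
    _ = _ := by rw [Real.mul_rpow (by linarith) hP0.le]; ring

end Pool.Agent.Y690
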