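import Pool.Agent.Y690.Count
import Pool.Agent.Y690.SD
import Pool.Agent.Y690.Pair2

/-!
# Ray class characters of conductor dividing an ideal `c` with `R = ℤ + c`
-/

set_option autoImplicit false

open Complex

namespace Pool.Agent.Y690

open Pool.Agent.W192.HK

variable {R : Subring ℂ} {ω : ℂ}

/-- the values at principal ideals and at the class representatives determine the character -/
lemma chi_det' (hb : H_BASIC) (hfpr : H_FPR) (hR : QR R ω) {c : Ideal R} (hc : c ≠ ⊥)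
    {s : Finset (Ideal R)} (hs : Cs s) (hcp : ∀ b ∈ s, IsCoprime b c)
    {χ ψ : Ideal R → ℂ} (hχ : χ ∈ XC c) (hψ : ψ ∈ XC c)
    (hP : ∀ α : R, α ≠ 0 → IsCoprime (sp α) c → χ (sp α) = ψ (sp α))
    (h2 : ∀ b ∈ s, χ b = ψ b) : χ = ψ := by
  obtain ⟨d, hdc, hχ⟩ := hχ
  obtain ⟨e, hec, hψ⟩ := hψ
  have := hR.ded
  -- the conductors
  have key : ∀ (d e : Ideal R), d ∣ c → e ∣ c → ∀ χ ψ : Ideal R → ℂ, HC 0 d χ → HC 0 e ψ →
      (∀ α : R, α ≠ 0 → IsCoprime (sp α) c → χ (sp α) = ψ (sp α)) → d ⊔ e = d := by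
    intro d e hdc hec χ ψ hχ hψ hP
    by_contra hne
    have hlt : d < d ⊔ e := lt_of_le_of_ne le_sup_left (fun h => hne h.symm)
    obtain ⟨α, hα0, hα1, hα2, hα3⟩ := hχ.prim _ hlt
    apply hα3
    rw [pow_zero]
    obtain ⟨x, hx, y, hy, hxy⟩ := Submodule.mem_sup.1 hα1
    -- `1 + y` is `α` modulo `d` and `1` modulo `e`
    have e1 : (1 + y) - α ∈ d := by
      have : (1 + y) - α = -x := by
        have : α = x + y + 1 := by rw [hxy]; ring
        rw [this]; ring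
      rw [this]; exact d.neg_mem hx
    have e2 : (1 + y) - 1 ∈ e := by rw [add_sub_cancel_left]; exact hy
    -- modify it modulo the intersection
    set l : Ideal R := d ⊓ e with hl
    by_cases hlt : l = ⊤
    · have hd : d = ⊤ := top_le_iff.1 (hlt ▸ inf_le_left)
      exact absurd hlt (by
        intro _
        apply hne
        rw [hd]
        exact top_sup_eq _)
    have hcop : IsCoprime (sp (1 + y)) l := by
      have h3 : IsCoprime (sp (1 + y)) (d * e) := by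
        refine IsCoprime.mul_right ((cop_congr e1).2 hα2) ((cop_congr e2).2 ?_)
        rw [Ideal.isCoprime_iff_sup_eq, sp, Ideal.span_singleton_one]
        exact top_sup_eq _
      rw [Ideal.isCoprime_iff_exists] at h3 ⊢
      obtain ⟨i, hi, j, hj, h⟩ := h3
      exact ⟨i, hi, j, Ideal.mul_le_inf hj, h⟩
    obtain ⟨β, hβ0, hβc, hβl⟩ := lift_cop hb hR hc (ne_zero_of_cop hlt hcop) hcop
    have e3 : β - α ∈ d := by
      have : β - α = (β - (1 + y)) + ((1 + y) - α) := by ring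
      rw [this]
      exact d.add_mem (inf_le_left (a := d) (b := e) hβl) e1
    have e4 : β - 1 ∈ e := by
      have : β - 1 = (β - (1 + y)) + ((1 + y) - 1) := by ring
      rw [this]
      exact e.add_mem (inf_le_right (a := d) (b := e) hβl) e2
    rw [← chi_per hfpr hR (dvd_refl d) hχ hβ0 hα0 e3, hP β hβ0 hβc, hψ.princ β hβ0 e4, pow_zero]
  have hde : d = e := by
    have k1 := key d e hdc hec χ ψ hχ hψ hP
    have k2 := key e d hec hdc ψ χ hψ hχ (fun α h1 h2 => (hP α h1 h2).symm)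
    rw [← k1, sup_comm, k2]
  subst hde
  funext I
  by_cases hI : I = ⊥ ∨ ¬ IsCoprime I d
  · rw [(hχ.zero I).2 hI, (hψ.zero I).2 hI]
  · push Not at hI
    obtain ⟨b, ⟨hbs, α, hα⟩, -⟩ := hs.uni I hI.1
    have hb0 := hs.ne b hbs
    have hα0 : α ≠ 0 := by
      rintro rfl
      rw [sp, Ideal.span_singleton_zero, Ideal.mul_eq_bot] at hα
      rcases hα with h | h
      · exact hI.1 h
      · exact hb0 h
    have hbd : IsCoprime b d := cop_mono hdc (hcp b hbs)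
    have hαd : IsCoprime (sp α) d := by
      rw [← hα]
      exact IsCoprime.mul_left hI.2 hbd
    obtain ⟨β, hβ0, hβc, hβd⟩ := lift_cop hb hR hc hα0 hαd
    have e1 : χ (sp α) = ψ (sp α) := by
      rw [← chi_per hfpr hR (dvd_refl d) hχ hβ0 hα0 hβd,
        ← chi_per hfpr hR (dvd_refl d) hψ hβ0 hα0 hβd]
      exact hP β hβ0 hβc
    rw [← hα, hχ.mul, hψ.mul, h2 b hbs] at e1
    exact mul_right_cancel₀ (chi_ne hψ hb0 hbd) e1

/-- `R = ℤ + c` and `N(c) = q` -/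
structure ZQ (c : Ideal R) (q : ℕ) : Prop where
  card : nm c = q
  int : ∀ α : R, ∃ n : ℤ, α - n ∈ c

section

variable {c : Ideal R} {q : ℕ}

lemma ZQ.pos (hb : H_BASIC) (hR : QR R ω) (h : ZQ c q) (hc : c ≠ ⊥) : 0 < q := by
  obtain ⟨-, -, b3, -⟩ := hb R ω hR
  have h1 := b3 c hc
  rw [h.card] at h1
  exact_mod_cast (by linarith : (0 : ℝ) < q)

lemma ZQ.char (hb : H_BASIC) (hR : QR R ω) (h : ZQ c q) (hc : c ≠ ⊥) : CharP (R ⧸ c) q := by
  obtain ⟨b1, -⟩ := hb R ω hR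
  have hfin := b1 c hc
  obtain ⟨k, hk⟩ := CharP.exists (R ⧸ c)
  have hinj : Function.Injective (ZMod.castHom (dvd_refl k) (R ⧸ c)) := ZMod.castHom_injective _
  have hsurj : Function.Surjective (ZMod.castHom (dvd_refl k) (R ⧸ c)) := by
    intro x
    obtain ⟨α, rfl⟩ := Ideal.Quotient.mk_surjective x
    obtain ⟨n, hn⟩ := h.int α
    refine ⟨(n : ZMod k), ?_⟩
    rw [map_intCast, ← map_intCast (Ideal.Quotient.mk c), eq_comm, Ideal.Quotient.eq]
    exact hn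
  have h1 : Nat.card (ZMod k) = Nat.card (R ⧸ c) := Nat.card_eq_of_bijective _ ⟨hinj, hsurj⟩
  rw [Nat.card_zmod] at h1
  have h2 : Nat.card (R ⧸ c) = q := by
    have := h.card
    rw [nm] at this
    exact_mod_cast this
  rw [← h2, ← h1]
  exact hk

lemma ZQ.mem (hb : H_BASIC) (hR : QR R ω) (h : ZQ c q) (hc : c ≠ ⊥) (n : ℤ) :
    (n : R) ∈ c ↔ (q : ℤ) ∣ n := by
  have := h.char hb hR hc
  rw [← CharP.intCast_eq_zero_iff (R ⧸ c) q, ← Ideal.Quotient.eq_zero_iff_mem, map_intCast]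

lemma ZQ.dvd (hb : H_BASIC) (hR : QR R ω) (h : ZQ c q) (hc : c ≠ ⊥) {d : Ideal R} (hd : d ≠ ⊥)
    (hdc : d ∣ c) : ∃ q' : ℕ, ZQ d q' ∧ q' ∣ q := by
  have h1 : ZQ d (Nat.card (R ⧸ d)) := ⟨rfl, fun α => by
    obtain ⟨n, hn⟩ := h.int α
    exact ⟨n, Ideal.le_of_dvd hdc hn⟩⟩
  refine ⟨_, h1, ?_⟩
  have h2 : ((q : ℤ) : R) ∈ c := (h.mem hb hR hc q).2 (dvd_refl _)
  have h3 := (h1.mem hb hR hd q).1 (Ideal.le_of_dvd hdc h2)
  exact_mod_cast h3

lemma ZQ.cop (hb : H_BASIC) (hR : QR R ω) (h : ZQ c q) (hc : c ≠ ⊥) (n : ℤ) :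
    IsCoprime (sp (n : R)) c ↔ IsCoprime n (q : ℤ) := by
  rw [cop_iff]
  constructor
  · rintro ⟨x, hx⟩
    obtain ⟨y, hy⟩ := h.int x
    have h1 : ((n * y - 1 : ℤ) : R) ∈ c := by
      have : ((n * y - 1 : ℤ) : R) = ((n : R) * x - 1) - (n : R) * (x - y) := by push_cast; ring
      rw [this]
      exact c.sub_mem hx (c.mul_mem_left _ hy)
    obtain ⟨w, hw⟩ := (h.mem hb hR hc _).1 h1
    exact ⟨y, -w, by linear_combination hw⟩
  · rintro ⟨y, w, hyw⟩
    refine ⟨(y : R), ?_⟩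
    have h1 : ((n * y - 1 : ℤ) : R) ∈ c := (h.mem hb hR hc _).2 ⟨-w, by linear_combination hyw⟩
    push_cast at h1
    exact h1

lemma int_ne {n : ℤ} (hn : n ≠ 0) : (n : R) ≠ 0 := by
  intro h
  have h1 : ((n : R) : ℂ) = 0 := by rw [h]; rfl
  push_cast at h1
  exact hn (by exact_mod_cast h1)

/-- values at integers -/
lemma ZQ.per (hb : H_BASIC) (hfpr : H_FPR) (hR : QR R ω) (h : ZQ c q) (hc : c ≠ ⊥)
    {χ : Ideal R → ℂ} (hχ : χ ∈ XC c) {m n : ℤ} (hm : m ≠ 0) (hn : n ≠ 0)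
    (hmn : (q : ℤ) ∣ m - n) : χ (sp (m : R)) = χ (sp (n : R)) := by
  obtain ⟨d, hdc, hχ⟩ := hχ
  refine chi_per hfpr hR hdc hχ (int_ne hm) (int_ne hn) ?_
  have := (h.mem hb hR hc (m - n)).2 hmn
  push_cast at this
  exact this

lemma xc_top {χ : Ideal R → ℂ} (hχ : χ ∈ XC c) : χ ⊤ = 1 := by
  obtain ⟨d, -, hχ⟩ := hχ
  exact hc_top hχ

lemma xc_mul {χ : Ideal R → ℂ} (hχ : χ ∈ XC c) (I J : Ideal R) : χ (I * J) = χ I * χ J := by
  obtain ⟨d, -, hχ⟩ := hχ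
  exact hχ.mul I J

lemma xc_ne {χ : Ideal R → ℂ} (hχ : χ ∈ XC c) {I : Ideal R} (hI : I ≠ ⊥) (h : IsCoprime I c) :
    χ I ≠ 0 := by
  obtain ⟨d, hdc, hχ⟩ := hχ
  exact chi_ne hχ hI (cop_mono hdc h)

/-- the Dirichlet character -/
lemma ZQ.exists_dir (hb : H_BASIC) (hfpr : H_FPR) (hR : QR R ω) (h : ZQ c q) (hc : c ≠ ⊥)
    {χ : Ideal R → ℂ} (hχ : χ ∈ XC c) : ∃ D : DirichletCharacter ℂ q,
      ∀ n : ℤ, n ≠ 0 → IsCoprime n (q : ℤ) → D (n : ZMod q) = χ (sp (n : R)) := by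
  have hq := h.pos hb hR hc
  have hNZ : NeZero q := ⟨hq.ne'⟩
  set v : (ZMod q)ˣ → ℤ := fun u => ((u : ZMod q).val : ℤ) + q with hv
  have hv0 : ∀ u, v u ≠ 0 := by
    intro u
    have : (0 : ℤ) < q := by exact_mod_cast hq
    have h1 : (0 : ℤ) ≤ ((u : ZMod q).val : ℤ) := Int.natCast_nonneg _
    show ((u : ZMod q).val : ℤ) + q ≠ 0
    omega
  have hvc : ∀ u : (ZMod q)ˣ, ((v u : ℤ) : ZMod q) = u := by
    intro u
    show ((((u : ZMod q).val : ℤ) + q : ℤ) : ZMod q) = u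
    push_cast
    rw [ZMod.natCast_zmod_val, ZMod.natCast_self, add_zero]
  have hvcop : ∀ u : (ZMod q)ˣ, IsCoprime (v u) (q : ℤ) := by
    intro u
    have h1 := Nat.isCoprime_iff_coprime.2 (ZMod.val_coe_unit_coprime u)
    show IsCoprime (((u : ZMod q).val : ℤ) + q) (q : ℤ)
    have h2 := h1.add_mul_left_left 1
    rwa [mul_one] at h2
  have hdv : ∀ m n : ℤ, ((m : ℤ) : ZMod q) = ((n : ℤ) : ZMod q) → (q : ℤ) ∣ m - n := by
    intro m n hmn
    rw [← ZMod.intCast_zmod_eq_zero_iff_dvd]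
    push_cast
    rw [hmn, sub_self]
  have hne : ∀ n : ℤ, n ≠ 0 → IsCoprime n (q : ℤ) → χ (sp (n : R)) ≠ 0 := fun n hn hnq =>
    xc_ne hχ (sp_ne (int_ne hn)) ((h.cop hb hR hc n).2 hnq)
  let f : (ZMod q)ˣ →* ℂˣ :=
    { toFun := fun u => Units.mk0 (χ (sp ((v u : ℤ) : R))) (hne _ (hv0 u) (hvcop u))
      map_one' := by
        apply Units.ext
        rw [Units.val_mk0, Units.val_one]
        rw [h.per hb hfpr hR hc hχ (hv0 1) one_ne_zero (hdv _ _ (by rw [hvc]; simp))]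
        rw [Int.cast_one, sp, Ideal.span_singleton_one, xc_top hχ]
      map_mul' := by
        intro u w
        apply Units.ext
        rw [Units.val_mk0, Units.val_mul, Units.val_mk0, Units.val_mk0, ← xc_mul hχ, ← sp_mul]
        rw [← Int.cast_mul]
        refine h.per hb hfpr hR hc hχ (hv0 _) (mul_ne_zero (hv0 _) (hv0 _)) (hdv _ _ ?_)
        rw [hvc, Int.cast_mul, hvc, hvc, Units.val_mul] }
  refine ⟨MulChar.ofUnitHom f, fun n hn hnq => ?_⟩
  obtain ⟨u, hu⟩ : ∃ u : (ZMod q)ˣ, (u : ZMod q) = (n : ZMod q) := by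
    have h1 : IsUnit ((n : ℤ) : ZMod q) := by
      obtain ⟨a, b, hab⟩ := hnq
      refine IsUnit.of_mul_eq_one ((a : ℤ) : ZMod q) ?_
      have h2 := congrArg (Int.cast : ℤ → ZMod q) hab
      push_cast at h2
      rw [ZMod.natCast_self, mul_zero, add_zero] at h2
      rw [mul_comm]
      exact h2
    exact ⟨h1.unit, h1.unit_spec⟩
  rw [← hu, MulChar.ofUnitHom_coe]
  show χ (sp ((v u : ℤ) : R)) = _
  exact h.per hb hfpr hR hc hχ (hv0 u) hn (hdv _ _ (by rw [hvc, hu]))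

end

end Pool.Agent.Y690
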