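import Pool.Agent.Y690.Tower
import Pool.Agent.W216.CY.Div

/-!
# Counting the ray class characters whose finite part has small order
-/

set_option autoImplicit false

open Complex

namespace Pool.Agent.Y690

open Pool.Agent.W192.HK

variable {R : Subring ℂ} {ω : ℂ}

lemma pow_card (hb : H_BASIC) (hR : QR R ω) {d : Ideal R} {χ : Ideal R → ℂ} (hχ : HC 0 d χ)
    (hfpr : H_FPR) {γ : R} (hγ0 : γ ≠ 0) (hγ : IsCoprime (sp γ) d) :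
    χ (sp γ) ^ Nat.card (R ⧸ d)ˣ = 1 := by
  obtain ⟨b1, -⟩ := hb R ω hR
  have := b1 d hχ.ne
  obtain ⟨x, hx⟩ := cop_iff.1 hγ
  have h1 : Ideal.Quotient.mk d γ * Ideal.Quotient.mk d x = 1 := by
    rw [← map_mul, ← map_one (Ideal.Quotient.mk d), Ideal.Quotient.eq]
    exact hx
  set v : (R ⧸ d)ˣ := ⟨Ideal.Quotient.mk d γ, Ideal.Quotient.mk d x, h1, by rw [mul_comm]; exact h1⟩
    with hv
  have h2 : v ^ Nat.card (R ⧸ d)ˣ = 1 := pow_card_eq_one'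
  have h3 : γ ^ Nat.card (R ⧸ d)ˣ - 1 ∈ d := by
    rw [← Ideal.Quotient.eq, map_pow, map_one]
    have h4 := congrArg Units.val h2
    rw [Units.val_pow_eq_pow_val, Units.val_one] at h4
    exact h4
  rw [← hc_pow hχ, ← sp_pow, chi_per hfpr hR (dvd_refl d) hχ (pow_ne_zero _ hγ0) one_ne_zero h3,
    sp, Ideal.span_singleton_one, hc_top hχ]

lemma ord_pos (hb : H_BASIC) (hR : QR R ω) {d : Ideal R} {χ : Ideal R → ℂ} (hχ : HC 0 d χ)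
    (hfpr : H_FPR) {γ : R} (hγ0 : γ ≠ 0) (hγ : IsCoprime (sp γ) d) :
    0 < orderOf (χ (sp γ)) := by
  obtain ⟨b1, -⟩ := hb R ω hR
  have := b1 d hχ.ne
  rw [orderOf_pos_iff, isOfFinOrder_iff_pow_eq_one]
  exact ⟨_, Nat.card_pos, pow_card hb hR hχ hfpr hγ0 hγ⟩

lemma ord_le (hb : H_BASIC) (hR : QR R ω) {d : Ideal R} {χ : Ideal R → ℂ} (hχ : HC 0 d χ)
    (hfpr : H_FPR) {γ : R} (hγ0 : γ ≠ 0) (hγ : IsCoprime (sp γ) d) :
    (orderOf (χ (sp γ)) : ℝ) ≤ nm d := by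
  obtain ⟨b1, -⟩ := hb R ω hR
  have := b1 d hχ.ne
  have h1 : orderOf (χ (sp γ)) ≤ Nat.card (R ⧸ d)ˣ :=
    orderOf_le_of_pow_eq_one Nat.card_pos (pow_card hb hR hχ hfpr hγ0 hγ)
  have h2 : Nat.card (R ⧸ d)ˣ ≤ Nat.card (R ⧸ d) :=
    Nat.card_le_card_of_injective (fun u : (R ⧸ d)ˣ => (u : R ⧸ d)) Units.val_injective
  rw [nm]
  exact_mod_cast h1.trans h2

lemma xc_ord (hb : H_BASIC) (hR : QR R ω) (hfpr : H_FPR) {c : Ideal R} (hc : c ≠ ⊥) {γ : R}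
    (hγ : Gen c γ) {χ : Ideal R → ℂ} (hχ : χ ∈ XC c) :
    χ (sp γ) ^ Nat.card (R ⧸ c)ˣ = 1 := by
  obtain ⟨d, hdc, hχ⟩ := hχ
  obtain ⟨b1, -⟩ := hb R ω hR
  have := b1 c hc
  obtain ⟨x, hx⟩ := cop_iff.1 hγ.cop
  have h1 : Ideal.Quotient.mk c γ * Ideal.Quotient.mk c x = 1 := by
    rw [← map_mul, ← map_one (Ideal.Quotient.mk c), Ideal.Quotient.eq]
    exact hx
  set v : (R ⧸ c)ˣ := ⟨Ideal.Quotient.mk c γ, Ideal.Quotient.mk c x, h1, by rw [mul_comm]; exact h1⟩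
    with hv
  have h2 : v ^ Nat.card (R ⧸ c)ˣ = 1 := pow_card_eq_one'
  have h3 : γ ^ Nat.card (R ⧸ c)ˣ - 1 ∈ c := by
    rw [← Ideal.Quotient.eq, map_pow, map_one]
    have h4 := congrArg Units.val h2
    rw [Units.val_pow_eq_pow_val, Units.val_one] at h4
    exact h4
  rw [← hc_pow hχ, ← sp_pow, chi_per hfpr hR hdc hχ (pow_ne_zero _ hγ.ne) one_ne_zero h3,
    sp, Ideal.span_singleton_one, hc_top hχ]

/-- the number of characters with values of small order -/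
theorem count (hb : H_BASIC) (hcls : H_CLS) (hfpr : H_FPR) (hR : QR R ω) {δ : ℝ} (hδ : 0 < δ) :
    ∃ C : ℝ, 0 < C ∧ ∀ (c : Ideal R) (γ : R), c ≠ ⊥ → Gen c γ → (XC c).Finite ∧
      ∀ D : ℝ, 0 ≤ D → (Set.ncard {χ | χ ∈ XC c ∧ (orderOf (χ (sp γ)) : ℝ) ≤ D} : ℝ) ≤
        C * D * (nm c) ^ δ := by
  classical
  obtain ⟨C, hC, hC1, -⟩ := Pool.Agent.W216.CY.t_div δ hδ
  obtain ⟨h, hh1, hpr, hsys⟩ := hcls R ω hR
  refine ⟨(h : ℝ) ^ h * C, by positivity, fun c γ hc hγ => ?_⟩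
  obtain ⟨s, hh, μ, T, hsc, hS⟩ := hsys c hc
  have hcard := fun d (hd : 0 < d) => card_pow hb hfpr hR hc hγ hS.cs hS.cp hh1 hpr d hd
  have hcard : ∀ d : ℕ, 0 < d → {χ | χ ∈ XC c ∧ χ (sp γ) ^ d = 1}.Finite ∧
      Set.ncard {χ | χ ∈ XC c ∧ χ (sp γ) ^ d = 1} ≤ d * h ^ h := by
    intro d hd
    have := hcard d hd
    rwa [hsc] at this
  obtain ⟨b1, b2, b3, -⟩ := hb R ω hR
  have := b1 c hc
  set Φ : ℕ := Nat.card (R ⧸ c)ˣ with hΦ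
  have hΦ0 : 0 < Φ := Nat.card_pos
  have hfin : (XC c).Finite := by
    refine (hcard Φ hΦ0).1.subset fun χ hχ => ⟨hχ, xc_ord hb hR hfpr hc hγ hχ⟩
  refine ⟨hfin, fun D hD => ?_⟩
  have hsub : {χ | χ ∈ XC c ∧ (orderOf (χ (sp γ)) : ℝ) ≤ D} ⊆
      ⋃ n ∈ Φ.divisors.filter (fun n : ℕ => (n : ℝ) ≤ D), {χ | χ ∈ XC c ∧ χ (sp γ) ^ n = 1} := by
    rintro χ ⟨hχ, hχD⟩
    rw [Set.mem_iUnion₂]
    refine ⟨orderOf (χ (sp γ)), ?_, hχ, pow_orderOf_eq_one _⟩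
    rw [Finset.mem_filter, Nat.mem_divisors]
    exact ⟨⟨orderOf_dvd_of_pow_eq_one (xc_ord hb hR hfpr hc hγ hχ), hΦ0.ne'⟩, hχD⟩
  have hpos : ∀ n ∈ Φ.divisors.filter (fun n : ℕ => (n : ℝ) ≤ D), 0 < n := fun n hn =>
    Nat.pos_of_mem_divisors (Finset.mem_filter.1 hn).1
  have h1 : Set.ncard {χ | χ ∈ XC c ∧ (orderOf (χ (sp γ)) : ℝ) ≤ D} ≤
      ∑ n ∈ Φ.divisors.filter (fun n : ℕ => (n : ℝ) ≤ D),
        Set.ncard {χ | χ ∈ XC c ∧ χ (sp γ) ^ n = 1} := by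
    have hfU : (⋃ n ∈ Φ.divisors.filter (fun n : ℕ => (n : ℝ) ≤ D),
        {χ | χ ∈ XC c ∧ χ (sp γ) ^ n = 1}).Finite :=
      Set.Finite.biUnion (Finset.finite_toSet _) fun n hn => (hcard n (hpos n hn)).1
    refine (Set.ncard_le_ncard hsub hfU).trans ?_
    exact Finset.set_ncard_biUnion_le _ _
  have h2 : (Set.ncard {χ | χ ∈ XC c ∧ (orderOf (χ (sp γ)) : ℝ) ≤ D} : ℝ) ≤
      ∑ n ∈ Φ.divisors.filter (fun n : ℕ => (n : ℝ) ≤ D), D * (h : ℝ) ^ h := by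
    have h3 : (Set.ncard {χ | χ ∈ XC c ∧ (orderOf (χ (sp γ)) : ℝ) ≤ D} : ℝ) ≤
        ∑ n ∈ Φ.divisors.filter (fun n : ℕ => (n : ℝ) ≤ D),
          (Set.ncard {χ | χ ∈ XC c ∧ χ (sp γ) ^ n = 1} : ℝ) := by exact_mod_cast h1
    refine h3.trans (Finset.sum_le_sum fun n hn => ?_)
    have h4 : (Set.ncard {χ | χ ∈ XC c ∧ χ (sp γ) ^ n = 1} : ℝ) ≤ n * (h : ℝ) ^ h := by
      exact_mod_cast (hcard n (hpos n hn)).2
    refine h4.trans ?_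
    have h5 := (Finset.mem_filter.1 hn).2
    gcongr
  refine h2.trans ?_
  rw [Finset.sum_const, nsmul_eq_mul]
  have h3 : ((Φ.divisors.filter (fun n : ℕ => (n : ℝ) ≤ D)).card : ℝ) ≤ C * (nm c) ^ δ := by
    have h4 : ((Φ.divisors.filter (fun n : ℕ => (n : ℝ) ≤ D)).card : ℝ) ≤ Φ.divisors.card := by
      exact_mod_cast Finset.card_filter_le _ _
    refine h4.trans ((hC1 Φ hΦ0).trans ?_)
    have h5 : (Φ : ℝ) ≤ nm c := by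
      have h6 : Nat.card (R ⧸ c)ˣ ≤ Nat.card (R ⧸ c) :=
        Nat.card_le_card_of_injective (fun u : (R ⧸ c)ˣ => (u : R ⧸ c)) Units.val_injective
      rw [nm]
      exact_mod_cast h6
    gcongr
  calc ((Φ.divisors.filter (fun n : ℕ => (n : ℝ) ≤ D)).card : ℝ) * (D * (h : ℝ) ^ h) ≤
        (C * (nm c) ^ δ) * (D * (h : ℝ) ^ h) := by gcongr
    _ = _ := by ring

end Pool.Agent.Y690
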