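import Pool.Agent.TH936.NF.Bd
import Pool.Agent.TH936.CW.Odk

/-!
# The order of vanishing at the centre, uniformly in the conductor and in the weight
-/

set_option autoImplicit false

open Complex Filter Topology Set MeasureTheory

namespace Pool.Agent.Y690

open Pool.Agent.W192.CY (VW Vk)
open Pool.Agent.W108.TW
open Pool.Agent.W192.HK Pool.Agent.TH936.CM Pool.Agent.TH936.CW
open Pool.Agent.TH936.HK (summ_r ext_series norm_Wc Wc_ne)
open Pool.Agent.TH936.NF (mellin_low mellin_up)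
open Pool.Agent.W283.HK.AFE0 (fib fib_fin exp_bd)


/-- Mellin transform of a theta series of weight `2 κ`, with a bound for the completed function -/
theorem mellinU (κ : ℕ) (hκ : 1 ≤ κ) (m C T : ℝ) (hm : 0 ≤ m) (hT0 : 0 < T)
    (hT : m + 2 ≤ κ + T) (b : ℕ → ℂ) (R : ℝ) (hR1 : 1 ≤ R) (hb0 : b 0 = 0)
    (hb : ∀ n : ℕ, 1 ≤ n → ‖b n‖ ≤ C * (n : ℝ) ^ m) (w : ℂ) (hwn : ‖w‖ = 1)
    (hfe : ∀ t : ℝ, 0 < t → ∑' n : ℕ, b n * (Real.exp (-(2 * Real.pi * n / R) / t) : ℂ) =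
      w * (t : ℂ) ^ (2 * κ) * ∑' n : ℕ, (starRingEnd ℂ) (b n) *
        (Real.exp (-(2 * Real.pi * n / R) * t) : ℂ)) :
    ∃ F Λ : ℂ → ℂ, Differentiable ℂ F ∧ Differentiable ℂ Λ ∧
      (∀ s : ℂ, m + 2 < s.re → F s = ∑' n : ℕ, b n * (n : ℂ) ^ (-s)) ∧
      (∀ s : ℂ, F s = Λ s * ((2 * Real.pi / R : ℝ) : ℂ) ^ s * (Complex.Gamma s)⁻¹) ∧
      ∀ s : ℂ, ‖s - κ‖ ≤ T → ‖Λ s‖ ≤ 2 * (|C| * (Real.Gamma (κ + T) *
        (2 * Real.pi / R)⁻¹ ^ ((κ : ℝ) + T)) * ∑' n : ℕ, (n : ℝ) ^ (-(2 : ℝ))) := by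
  have hpi := Real.pi_pos
  set Z : ℝ := ∑' n : ℕ, (n : ℝ) ^ (-(2 : ℝ)) with hZ
  have hZ0 : 0 ≤ Z := tsum_nonneg fun n => by positivity
  set A : ℝ := κ + T with hA
  have hκ0 : (0 : ℝ) < κ := by exact_mod_cast hκ
  have hA0 : 0 < A := by positivity
  have hGA : 0 < Real.Gamma A := Real.Gamma_pos_of_pos hA0
  have hR : 0 < R := by linarith
  have hw : w ≠ 0 := by intro h; rw [h, norm_zero] at hwn; exact zero_ne_one hwn
  set c : ℝ := 2 * Real.pi / R with hc'
  have hc : 0 < c := by positivity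
  have hb' : ∀ n : ℕ, 1 ≤ n → ‖(starRingEnd ℂ) (b n)‖ ≤ C * (n : ℝ) ^ m := by
    intro n hn; rw [RCLike.norm_conj]; exact hb n hn
  have hb0' : (starRingEnd ℂ) (b 0) = 0 := by rw [hb0, map_zero]
  have hrel : ∀ x : ℝ, 0 < x → Th b c (1 / x) =
      w * (x : ℂ) ^ (2 * κ) * Th (fun n => (starRingEnd ℂ) (b n)) c x := by
    intro x hx
    have h := hfe x hx
    rw [Th, Th]
    have e1 : ∀ n : ℕ, -(c * n) * (1 / x) = -(2 * Real.pi * n / R) / x := by
      intro n; rw [hc']; ring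
    have e2 : ∀ n : ℕ, -(c * n) * x = -(2 * Real.pi * n / R) * x := by
      intro n; rw [hc']; ring
    simp only [e1, e2]
    exact h
  let P : WeakFEPair ℂ :=
    { f := Th b c
      g := Th (fun n => (starRingEnd ℂ) (b n)) c
      k := ((2 * κ : ℕ) : ℝ)
      ε := w
      f₀ := 0
      g₀ := 0
      hf_int := (continuousOn_Th hb0 hb hc).locallyIntegrableOn measurableSet_Ioi
      hg_int := (continuousOn_Th hb0' hb' hc).locallyIntegrableOn measurableSet_Ioi
      hk := by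
        have : 0 < 2 * κ := by omega
        exact_mod_cast this
      hε := hw
      h_feq := by
        intro x (hx : 0 < x)
        rw [hrel x hx, smul_eq_mul]
        congr 2
        rw [Real.rpow_natCast]
        push_cast
        rfl
      hf_top := Th_isBigO hb0 hb hc
      hg_top := Th_isBigO hb0' hb' hc }
  have hP : IsStrongFEPair P := ⟨rfl, rfl⟩
  have hΛf : P.Λ = mellin (Th b c) := hP.Λ_eq
  have hcC : (c : ℂ) ≠ 0 := by exact_mod_cast hc.ne'
  have hrel' : ∀ t : ℝ, 0 < t → Th b c (t⁻¹) =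
      w * (t : ℂ) ^ (2 * κ) * Th (fun n => (starRingEnd ℂ) (b n)) c t := by
    intro t ht
    rw [← one_div]
    exact hrel t ht
  have hInt : ∀ s : ℂ, IntegrableOn (fun t : ℝ => (t : ℂ) ^ (s - 1) * Th b c t) (Ioi 0) := by
    intro s
    exact (hP.hasMellin s).1
  have hsplit : ∀ (s : ℂ) (t0 : ℝ), 0 < t0 → P.Λ s =
      (∫ t in Ioc (0 : ℝ) t0, (t : ℂ) ^ (s - 1) * Th b c t) +
        ∫ t in Ioi t0, (t : ℂ) ^ (s - 1) * Th b c t := by
    intro s t0 ht0
    rw [hΛf, mellin]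
    simp only [smul_eq_mul]
    rw [← Ioc_union_Ioi_eq_Ioi ht0.le]
    refine setIntegral_union ?_ measurableSet_Ioi ((hInt s).mono_set Ioc_subset_Ioi_self)
      ((hInt s).mono_set (Ioi_subset_Ioi ht0.le))
    rw [Set.disjoint_left]
    intro x hx hx'
    exact absurd hx.2 (not_le.2 hx')
  let F : ℂ → ℂ := fun s => P.Λ s * (c : ℂ) ^ s * (Complex.Gamma s)⁻¹
  refine ⟨F, P.Λ, ?_, hP.differentiable_Λ, ?_, fun s => rfl, ?_⟩
  · -- differentiable
    have h1 : Differentiable ℂ (fun s : ℂ => P.Λ s) := hP.differentiable_Λ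
    have h2 : Differentiable ℂ (fun s : ℂ => (c : ℂ) ^ s) := by
      intro s
      exact (DifferentiableAt.const_cpow (by fun_prop) (Or.inl hcC))
    have h3 : Differentiable ℂ (fun s : ℂ => (Complex.Gamma s)⁻¹) :=
      Complex.differentiable_one_div_Gamma
    exact (h1.mul h2).mul h3
  · -- Dirichlet series
    intro S hSm
    have hSpos : 0 < S.re := by linarith
    have hG : Complex.Gamma S ≠ 0 := Complex.Gamma_ne_zero_of_re_pos hSpos
    have h1 := hasSum_mellin (a := b) (p := fun n : ℕ => c * n) (F := Th b c) (s := S)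
      (by
        intro n
        rcases Nat.eq_zero_or_pos n with rfl | hn
        · exact Or.inl hb0
        · right
          have : (0 : ℝ) < n := by exact_mod_cast hn
          positivity) hSpos
      (by
        intro t (ht : 0 < t)
        exact (summable_term hb0 hb hc ht).hasSum)
      (by
        have h2 : Summable (fun n : ℕ => |C| / c ^ S.re * (n : ℝ) ^ (m - S.re)) :=
          (Real.summable_nat_rpow.mpr (by linarith)).mul_left _
        refine Summable.of_nonneg_of_le (fun n => by positivity) (fun n => ?_) h2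
        rcases Nat.eq_zero_or_pos n with rfl | hn
        · rw [hb0, norm_zero, zero_div]; positivity
        · have hn' : (0 : ℝ) < n := by exact_mod_cast hn
          have h3 : ‖b n‖ ≤ |C| * (n : ℝ) ^ m :=
            (hb n hn).trans (mul_le_mul_of_nonneg_right (le_abs_self C) (by positivity))
          rw [Real.mul_rpow hc.le hn'.le, Real.rpow_sub hn', div_mul_div_comm]
          exact div_le_div_of_nonneg_right h3 (by positivity))
    have h2 := h1.tsum_eq
    have h3 : F S = (∑' n : ℕ, Complex.Gamma S * b n / ((c * n : ℝ) : ℂ) ^ S) * (c : ℂ) ^ S *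
        (Complex.Gamma S)⁻¹ := by
      simp only [F]
      rw [hΛf, ← h2]
    have hcs : (c : ℂ) ^ S ≠ 0 := by
      rw [Complex.cpow_def_of_ne_zero hcC]; exact Complex.exp_ne_zero _
    rw [h3, ← tsum_mul_right, ← tsum_mul_right]
    refine tsum_congr (fun n => ?_)
    rcases Nat.eq_zero_or_pos n with rfl | hn
    · rw [hb0]; simp
    · have hn' : (n : ℂ) ≠ 0 := by exact_mod_cast hn.ne'
      have hnS : (n : ℂ) ^ S ≠ 0 := by
        rw [Complex.cpow_def_of_ne_zero hn']; exact Complex.exp_ne_zero _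
      rw [Complex.ofReal_mul, Complex.mul_cpow_ofReal_nonneg hc.le (Nat.cast_nonneg n),
        Complex.cpow_neg]
      simp only [Complex.ofReal_natCast]
      field_simp
  · -- the bound
    intro S hS0
    have hre : |S.re - κ| ≤ T := by
      have h1 := Complex.abs_re_le_norm (S - κ)
      rw [Complex.sub_re, Complex.natCast_re] at h1
      linarith
    obtain ⟨hre1, hre2⟩ := abs_le.1 hre
    have hup1 := mellin_up hA0 hT hb0 hb hc S (by linarith)
    have hup2 := mellin_up hA0 hT hb0' hb' hc (2 * κ - S) (by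
      rw [Complex.sub_re]
      have : (2 * (κ : ℂ)).re = 2 * κ := by simp
      rw [this]
      linarith)
    rw [hsplit S 1 one_pos,
      mellin_low κ (Th b c) (Th (fun n => (starRingEnd ℂ) (b n)) c) w S hrel']
    refine (norm_add_le _ _).trans ?_
    rw [norm_mul, hwn, one_mul]
    linarith

variable {R : Subring ℂ} {ω : ℂ}

/-- **The order of vanishing at the centre.** -/
theorem ordU_le (h1 : H_BASIC) (h2 : H_FP) (h3 : H_CNT) (h4 : H_GAUSS) (h5 : H_THETA)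
    (h6 : H_CLS) (hR : QR R ω) :
    ∃ K : ℝ, 0 < K ∧ ∀ (e : ℕ) (q : Ideal R) (θ : Ideal R → ℂ), HC (2 * e + 1) q θ →
      ∀ F : ℂ → ℂ, Differentiable ℂ F →
      (∀ z : ℂ, ((e + 1 : ℕ) : ℝ) + 1 / 2 < z.re →
        HasSum (fun I : Ideal R => θ I * (nm I : ℂ) ^ (-z)) (F z)) →
      analyticOrderAt F ((e + 1 : ℕ) : ℂ) ≠ ⊤ ∧
        (analyticOrderNatAt F ((e + 1 : ℕ) : ℂ) : ℝ) ≤
          K * (1 + Real.log (nm q) + Real.log ((e + 1 : ℕ) : ℝ)) := by
  classical
  obtain ⟨b1, b2, b3, b4, b5, b6, b7, -⟩ := h1 R ω hR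
  obtain ⟨c1, c2, C, hC, c3, -⟩ := h3 R ω hR
  set N : Ideal R → ℕ := fun I => Nat.card (R ⧸ I) with hN
  have hNn : ∀ I : Ideal R, nm I = (N I : ℝ) := fun I => rfl
  have hNc : ∀ I : Ideal R, (nm I : ℂ) = (N I : ℂ) := fun I => by
    rw [hNn, Complex.ofReal_natCast]
  have hω := hR.im
  have hpi := Real.pi_pos
  have hS1 : ∀ σ : ℝ, 1 < σ → Summable (fun I : Ideal R => (N I : ℝ) ^ (-σ)) := fun σ hσ => c2 σ hσ
  have hfib : ∀ n : ℕ, (N ⁻¹' {n}).Finite := by
    intro n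
    refine (c1 n).subset ?_
    intro I hI
    have : N I = n := hI
    show nm I ≤ n
    rw [hNn, this]
  set Z : ℝ := ∑' n : ℕ, (n : ℝ) ^ (-(2 : ℝ)) with hZ
  -- the point
  obtain ⟨ns, hns3, hσ2⟩ : ∃ ns : ℕ, 3 ≤ ns ∧ C * Z * (2 : ℝ) ^ (5 / 2 - (ns : ℝ)) ≤ 1 / 2 := by
    have h1 : Tendsto (fun σ : ℝ => C * Z * (2 : ℝ) ^ (5 / 2 - σ)) atTop (𝓝 0) := by
      have h2 : Tendsto (fun σ : ℝ => (2 : ℝ) ^ (5 / 2 - σ)) atTop (𝓝 0) := by
        have h3 : Tendsto (fun σ : ℝ => (5 / 2 : ℝ) - σ) atTop atBot :=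
          tendsto_const_nhds.add_atBot tendsto_neg_atTop_atBot
        have h4 := tendsto_rpow_atBot_of_base_gt_one 2 (by norm_num : (1 : ℝ) < 2)
        exact h4.comp h3
      have := h2.const_mul (C * Z)
      rwa [mul_zero] at this
    have h1' := h1.comp tendsto_natCast_atTop_atTop
    have h2 := (h1'.eventually (eventually_le_nhds (show (0 : ℝ) < 1 / 2 by norm_num))).and
      (eventually_ge_atTop 3)
    obtain ⟨σ, h3, h4⟩ := h2.exists
    exact ⟨σ, h4, h3⟩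
  set σ : ℝ := (ns : ℝ) with hσdef
  have hσ3 : (3 : ℝ) ≤ σ := by rw [hσdef]; exact_mod_cast hns3
  have hσ : 5 / 2 ≤ σ := by linarith
  have hσ0 : 0 < σ := by linarith
  have hω1 := two_im hR
  have hlω : 0 ≤ Real.log (2 * ω.im) := Real.log_nonneg hω1
  set B : ℝ := |Real.log (4 * |C| * Z)| + σ * Real.log (1 + 2 * σ) + σ * Real.log (2 * ω.im) + σ
    with hB
  have hlog2 : 0 < Real.log 2 := Real.log_pos (by norm_num)
  have hl1 : 0 ≤ Real.log (1 + 2 * σ) := Real.log_nonneg (by linarith)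
  have hB0 : 0 < B := by
    have := abs_nonneg (Real.log (4 * |C| * Z))
    rw [hB]; positivity
  refine ⟨B / Real.log 2, by positivity, fun e q ψ hψ F hFd hFs => ?_⟩
  have hψ' : HC (2 * (e + 1) - 1) q ψ := hψ
  have hqt := hψ'.ne_top (by omega)
  have hq1 := b3 q hψ.ne
  have hsq1 : 1 ≤ Real.sqrt (nm q) := Real.one_le_sqrt.2 hq1
  have hsq : 0 < Real.sqrt (nm q) := by linarith
  obtain ⟨f1, -⟩ := h2 R ω hR _ q ψ hψ hqt
  obtain ⟨h, hh1, hpr, hsys⟩ := h6 R ω hR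
  obtain ⟨s, hh, μ, T, -, hS⟩ := hsys q hψ.ne
  have hW1 : ‖Wc ω (e + 1) q hh μ T ψ‖ = 1 := norm_Wc h1 h2 h4 hR (by omega) hψ' hS
  have hψ0 : ψ ⊥ = 0 := (hψ.zero ⊥).2 (Or.inl rfl)
  have hψ1 : ψ ⊤ = 1 := by
    have e1 := hψ.mul ⊤ ⊤
    rw [Ideal.mul_top] at e1
    have e2 : ψ ⊤ ≠ 0 := by
      intro h0
      rcases (hψ.zero ⊤).1 h0 with h | h
      · have := b7 (⊤ : Ideal R)
        have e3 := this.2 rfl
        rw [h, b2] at e3
        norm_num at e3
      · apply h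
        rw [Ideal.isCoprime_iff_sup_eq]
        exact top_sup_eq _
    exact (mul_right_cancel₀ e2 (by rw [one_mul]; exact e1)).symm
  have hfz : ∀ I, N I = 0 → ψ I = 0 := by
    intro I h0
    by_contra h
    have h6 : I ≠ ⊥ := fun h7 => h ((hψ.zero I).2 (Or.inl h7))
    have h7 := b3 I h6
    rw [hNn, h0] at h7
    norm_num at h7
  have hf1 : ∀ I, 1 ≤ N I → ‖ψ I‖ ≤ (N I : ℝ) ^ ((e : ℝ) + 1 / 2) := by
    intro I hI
    have hNI : (0 : ℝ) < N I := by exact_mod_cast hI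
    by_cases h : ψ I = 0
    · rw [h, norm_zero]
      positivity
    · have h6 : I ≠ ⊥ ∧ IsCoprime I q := by
        constructor
        · intro h7
          exact h ((hψ.zero I).2 (Or.inl h7))
        · by_contra h7
          exact h ((hψ.zero I).2 (Or.inr h7))
      have h7 := f1 I h6.1 h6.2
      rw [hNn] at h7
      have h8 : ((N I : ℝ) ^ ((e : ℝ) + 1 / 2)) ^ 2 = (N I : ℝ) ^ (2 * e + 1) := by
        rw [← Real.rpow_natCast ((N I : ℝ) ^ ((e : ℝ) + 1 / 2)) 2, ← Real.rpow_mul hNI.le,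
          ← Real.rpow_natCast (N I : ℝ) (2 * e + 1)]
        congr 1
        push_cast
        ring
      have h9 : ‖ψ I‖ ^ 2 ≤ ((N I : ℝ) ^ ((e : ℝ) + 1 / 2)) ^ 2 := by rw [h7, h8]
      exact le_of_sq_le_sq h9 (by positivity)
  have hcn : ∀ I, 1 ≤ N I → ‖(starRingEnd ℂ) (ψ I)‖ ≤ (N I : ℝ) ^ ((e : ℝ) + 1 / 2) := by
    intro I hI
    rw [RCLike.norm_conj]
    exact hf1 I hI
  have hfzc : ∀ I, N I = 0 → (starRingEnd ℂ) (ψ I) = 0 := by
    intro I hI
    rw [hfz I hI, map_zero]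
  set b : ℕ → ℂ := fun n => ∑' I : N ⁻¹' {n}, ψ I with hb
  have hbf : ∀ n, b n = ∑ I ∈ (hfib n).toFinset, ψ I := fun n => fib_fin (hfib n) ψ
  have hbc : ∀ n, ∑' I : N ⁻¹' {n}, (starRingEnd ℂ) (ψ I) = (starRingEnd ℂ) (b n) := by
    intro n
    rw [hbf, fib_fin (hfib n) (fun I => (starRingEnd ℂ) (ψ I)), map_sum]
  have hb0 : b 0 = 0 := by
    rw [hbf]
    refine Finset.sum_eq_zero fun I hI => ?_
    exact hfz I ((hfib 0).mem_toFinset.1 hI)
  have hb1 : b 1 = 1 := by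
    rw [hbf]
    have e1 : (hfib 1).toFinset = {(⊤ : Ideal R)} := by
      ext I
      rw [Set.Finite.mem_toFinset, Finset.mem_singleton]
      have e2 : nm I = 1 ↔ I = ⊤ := b7 I
      rw [hNn] at e2
      constructor
      · intro hI
        have : N I = 1 := hI
        exact e2.1 (by rw [this]; norm_num)
      · intro hI
        have := e2.2 hI
        show N I = 1
        exact_mod_cast this
    rw [e1, Finset.sum_singleton, hψ1]
  have hbn : ∀ n : ℕ, 1 ≤ n → ‖b n‖ ≤ C * (n : ℝ) ^ ((e : ℝ) + 3 / 2) := by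
    intro n hn
    have hn0 : (0 : ℝ) < n := by exact_mod_cast hn
    have hn1 : (1 : ℝ) ≤ n := by exact_mod_cast hn
    rw [hbf]
    refine (norm_sum_le _ _).trans ((Finset.sum_le_sum (g := fun _ => (n : ℝ) ^ ((e : ℝ) + 1 / 2))
      fun I hI => ?_).trans ?_)
    · have h6 : N I = n := (hfib n).mem_toFinset.1 hI
      have h7 := hf1 I (by rw [h6]; exact hn)
      rwa [h6] at h7
    · have e3 : (n : ℝ) ^ ((e : ℝ) + 3 / 2) = n * (n : ℝ) ^ ((e : ℝ) + 1 / 2) := by
        rw [show (e : ℝ) + 3 / 2 = 1 + ((e : ℝ) + 1 / 2) by ring, Real.rpow_add hn0,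
          Real.rpow_one]
      rw [Finset.sum_const, nsmul_eq_mul, ← Set.ncard_eq_toFinset_card (N ⁻¹' {n}) (hfib n),
        e3, ← mul_assoc]
      refine mul_le_mul_of_nonneg_right ?_ (by positivity)
      refine le_trans ?_ (c3 n hn1)
      have := Set.ncard_le_ncard (s := N ⁻¹' {n}) (t := {I : Ideal R | nm I ≤ (n : ℝ)}) (by
        intro I hI
        have h8 : N I = n := hI
        show nm I ≤ n
        rw [hNn, h8]) (c1 n)
      exact_mod_cast this
  -- the theta function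
  set Rp : ℝ := 2 * ω.im * Real.sqrt (nm q) with hRp
  have hRp0 : 0 < Rp := by positivity
  have hRp1 : 1 ≤ Rp := by rw [hRp]; nlinarith
  have hcoef : ∀ x : ℝ, Real.pi * x / (ω.im * Real.sqrt (nm q)) = 2 * Real.pi * x / Rp := by
    intro x
    rw [hRp]
    field_simp
  have hfe : ∀ t : ℝ, 0 < t → ∑' n : ℕ, b n * (Real.exp (-(2 * Real.pi * n / Rp) / t) : ℂ) =
      Wc ω (e + 1) q hh μ T ψ * (t : ℂ) ^ (2 * (e + 1)) * ∑' n : ℕ,
        (starRingEnd ℂ) (b n) * (Real.exp (-(2 * Real.pi * n / Rp) * t) : ℂ) := by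
    intro t ht
    have hth := h5 R ω hR (e + 1) (by omega) q ψ hψ' s hh μ T hS t ht
    have s1 := summ_r hS1 ((e : ℝ) + 1 / 2) ψ hfz hf1
      (fun n : ℕ => (Real.exp (-(2 * Real.pi * n / Rp) / t) : ℂ))
      (A := 1) (c := 2 * Real.pi / Rp / t) (by positivity) (by
        intro n _
        rw [Complex.norm_real, Real.norm_eq_abs, Real.abs_exp, one_mul]
        refine le_of_eq ?_
        congr 1
        ring)
    have s2 := summ_r hS1 ((e : ℝ) + 1 / 2) (fun I => (starRingEnd ℂ) (ψ I)) hfzc hcn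
      (fun n : ℕ => (Real.exp (-(2 * Real.pi * n / Rp) * t) : ℂ))
      (A := 1) (c := 2 * Real.pi / Rp * t) (by positivity) (by
        intro n _
        rw [Complex.norm_real, Real.norm_eq_abs, Real.abs_exp, one_mul]
        refine le_of_eq ?_
        congr 1
        ring)
    have e1 := fib (N := N) (f := ψ)
      (fun n : ℕ => (Real.exp (-(2 * Real.pi * n / Rp) / t) : ℂ)) s1
    have e2 := fib (N := N) (f := fun I => (starRingEnd ℂ) (ψ I))
      (fun n : ℕ => (Real.exp (-(2 * Real.pi * n / Rp) * t) : ℂ)) s2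
    simp only [hbc] at e2
    rw [← e2]
    refine (e1.symm.trans ?_).trans (hth.trans ?_)
    · refine tsum_congr fun I => ?_
      rw [hcoef, hNn I]
    · congr 1
      refine tsum_congr fun I => ?_
      rw [hcoef, hNn I]
  obtain ⟨G, Λ, hGd, hΛd, hGs, hGΛ, hGb⟩ := mellinU (e + 1) (by omega) ((e : ℝ) + 3 / 2) C (2 * σ)
    (by positivity) (by positivity) (by push_cast; linarith) b Rp hRp1 hb0 hbn _ hW1 hfe
  -- `F = G`
  have hFG : F = G := by
    refine entire_eq hFd hGd (e + 4) fun z hz => ?_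
    rw [hGs z (by linarith)]
    have hzz : ((e + 1 : ℕ) : ℝ) + 1 / 2 < z.re := by push_cast; linarith
    have hsm := (hFs z hzz).summable
    have e4 := fib (N := N) (f := ψ) (fun n : ℕ => (n : ℂ) ^ (-z)) (by
      refine hsm.congr fun I => ?_
      rw [hNc])
    rw [← (hFs z hzz).tsum_eq, ← e4]
    refine tsum_congr fun I => ?_
    rw [hNc]
  have hlow : 1 / 2 ≤ ‖F (((e : ℝ) + 1 + σ : ℝ) : ℂ)‖ := by
    rw [hFG, hGs _ (by rw [Complex.ofReal_re]; linarith)]
    exact lower2 e b hb1 hb0 hbn σ hσ hσ2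
  have hntop : analyticOrderAt F ((e + 1 : ℕ) : ℂ) ≠ ⊤ := by
    intro htop
    have g1 : F =ᶠ[𝓝 ((e + 1 : ℕ) : ℂ)] 0 := analyticOrderAt_eq_top.1 htop
    have g2 : AnalyticOnNhd ℂ F univ := fun z _ => hFd.analyticAt z
    have g3 := g2.eqOn_zero_of_preconnected_of_eventuallyEq_zero isPreconnected_univ
      (mem_univ _) g1 (mem_univ (((e : ℝ) + 1 + σ : ℝ) : ℂ))
    rw [g3, Pi.zero_apply, norm_zero] at hlow
    norm_num at hlow
  refine ⟨hntop, ?_⟩
  set κ : ℕ := e + 1 with hκ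
  set c : ℝ := 2 * Real.pi / Rp with hcd
  have hc : 0 < c := by positivity
  have hcC : (c : ℂ) ≠ 0 := by exact_mod_cast hc.ne'
  -- the order of `F` is the order of `Λ`
  have hord : analyticOrderAt F (κ : ℂ) = analyticOrderAt Λ (κ : ℂ) := by
    have e1 : F = Λ * (fun s : ℂ => (c : ℂ) ^ s * (Complex.Gamma s)⁻¹) := by
      rw [hFG]
      funext s
      rw [hGΛ s, Pi.mul_apply, mul_assoc]
    have hd2 : Differentiable ℂ (fun s : ℂ => (c : ℂ) ^ s * (Complex.Gamma s)⁻¹) := by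
      have h2 : Differentiable ℂ (fun s : ℂ => (c : ℂ) ^ s) := by
        intro s
        exact (DifferentiableAt.const_cpow (by fun_prop) (Or.inl hcC))
      exact h2.mul Complex.differentiable_one_div_Gamma
    have e2 : analyticOrderAt (fun s : ℂ => (c : ℂ) ^ s * (Complex.Gamma s)⁻¹) (κ : ℂ) = 0 := by
      rw [(hd2.analyticAt _).analyticOrderAt_eq_zero]
      refine mul_ne_zero ?_ (inv_ne_zero ?_)
      · rw [Complex.cpow_def_of_ne_zero hcC]; exact Complex.exp_ne_zero _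
      · refine Complex.Gamma_ne_zero_of_re_pos ?_
        rw [Complex.natCast_re]
        have : 0 < κ := by omega
        exact_mod_cast this
    rw [e1, analyticOrderAt_mul (hΛd.analyticAt _) (hd2.analyticAt _), e2, add_zero]
  have hordN : analyticOrderNatAt F (κ : ℂ) = analyticOrderNatAt Λ (κ : ℂ) := by
    rw [analyticOrderNatAt, analyticOrderNatAt, hord]
  rw [hordN]
  set n := analyticOrderNatAt Λ (κ : ℂ) with hn
  have hκr : (κ : ℝ) = (e : ℝ) + 1 := by rw [hκ]; push_cast; ring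
  have hκ1 : (1 : ℝ) ≤ κ := by rw [hκr]; linarith [Nat.cast_nonneg (α := ℝ) e]
  have hκ0 : (0 : ℝ) < κ := by linarith
  set x0 : ℝ := κ + σ with hx0
  have hx0p : 0 < x0 := by positivity
  have hGx : 0 < Real.Gamma x0 := Real.Gamma_pos_of_pos hx0p
  have hlow' : 1 / 2 * (Real.Gamma x0 * c ^ (-x0)) ≤ ‖Λ (x0 : ℂ)‖ := by
    have e1 : ((e : ℝ) + 1 + σ : ℝ) = x0 := by rw [hx0, hκr]
    rw [e1, hFG, hGΛ, norm_mul, norm_mul, norm_inv, Complex.Gamma_ofReal, Complex.norm_real,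
      Real.norm_eq_abs, abs_of_pos hGx, Complex.norm_cpow_eq_rpow_re_of_pos hc,
      Complex.ofReal_re] at hlow
    have e2 : c ^ x0 * c ^ (-x0) = 1 := by
      rw [← Real.rpow_add hc, add_neg_cancel, Real.rpow_zero]
    have e3 : 0 < c ^ (-x0) := Real.rpow_pos_of_pos hc _
    calc 1 / 2 * (Real.Gamma x0 * c ^ (-x0))
        ≤ (‖Λ (x0 : ℂ)‖ * c ^ x0 * (Real.Gamma x0)⁻¹) * (Real.Gamma x0 * c ^ (-x0)) :=
          mul_le_mul_of_nonneg_right hlow (by positivity)
      _ = ‖Λ (x0 : ℂ)‖ * (c ^ x0 * c ^ (-x0)) * ((Real.Gamma x0)⁻¹ * Real.Gamma x0) := by ring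
      _ = ‖Λ (x0 : ℂ)‖ := by rw [e2, inv_mul_cancel₀ hGx.ne', mul_one, mul_one]
  have hz : ‖((x0 : ℝ) : ℂ) - ((κ : ℕ) : ℂ)‖ = σ := by
    rw [hx0, Complex.ofReal_add, Complex.ofReal_natCast, add_sub_cancel_left, Complex.norm_real,
      Real.norm_eq_abs, abs_of_pos hσ0]
  have h3 := Pool.Agent.TH940.order_bound Λ hΛd ((κ : ℕ) : ℂ) (x0 : ℂ) (R := 2 * σ)
    (M := 2 * (|C| * (Real.Gamma (κ + 2 * σ) * c⁻¹ ^ ((κ : ℝ) + 2 * σ)) * Z)) (by positivity)
    (by rw [hz]; linarith) hGb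
  rw [← hn, hz] at h3
  have h4 : σ / (2 * σ) = 1 / 2 := by field_simp
  rw [h4] at h3
  -- the quotient of Gamma values
  have hGq : Real.Gamma (κ + 2 * σ) ≤ Real.Gamma x0 * (κ + 2 * σ) ^ ns := by
    have e1 : (κ : ℝ) + 2 * σ = ((κ + 2 * ns - 1 : ℕ) : ℝ) + 1 := by
      rw [hσdef]
      have : 1 ≤ κ + 2 * ns := by omega
      push_cast [Nat.cast_sub this]
      ring
    have e2 : x0 = ((κ + ns - 1 : ℕ) : ℝ) + 1 := by
      rw [hx0, hσdef]
      have : 1 ≤ κ + ns := by omega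
      push_cast [Nat.cast_sub this]
      ring
    have e3 : (((κ + 2 * ns - 1).factorial : ℕ) : ℝ) ≤
        ((κ + ns - 1).factorial : ℝ) * ((κ + 2 * ns : ℕ) : ℝ) ^ ns := by
      have e4 := Nat.factorial_mul_ascFactorial (κ + ns - 1) ns
      have e5 : κ + ns - 1 + ns = κ + 2 * ns - 1 := by omega
      rw [e5] at e4
      rw [← e4]
      have e6 : (κ + ns - 1 + 1).ascFactorial ns ≤ (κ + 2 * ns) ^ ns := by
        refine (Nat.ascFactorial_le_pow_add _ _).trans ?_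
        refine Nat.pow_le_pow_left ?_ _
        omega
      exact_mod_cast Nat.mul_le_mul_left _ e6
    have e7 : ((κ + 2 * ns : ℕ) : ℝ) = κ + 2 * σ := by rw [hσdef]; push_cast; ring
    rw [e7] at e3
    conv_lhs => rw [e1, Real.Gamma_nat_eq_factorial]
    rw [e2, Real.Gamma_nat_eq_factorial]
    exact e3
  have hcc : c⁻¹ ^ ((κ : ℝ) + 2 * σ) = c ^ (-x0) * c⁻¹ ^ σ := by
    rw [Real.inv_rpow hc.le, Real.inv_rpow hc.le, ← Real.rpow_neg hc.le, ← Real.rpow_neg hc.le,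
      ← Real.rpow_add hc, hx0]
    congr 1
    ring
  have hcσ : c⁻¹ ^ σ ≤ Rp ^ σ := by
    refine Real.rpow_le_rpow (by positivity) ?_ hσ0.le
    rw [hcd, inv_div, div_le_iff₀ (by positivity)]
    nlinarith [Real.pi_gt_three]
  have hZ0 : 0 ≤ Z := tsum_nonneg fun n => by positivity
  have hcx : 0 < c ^ (-x0) := Real.rpow_pos_of_pos hc _
  have hRpσ : 0 < Rp ^ σ := Real.rpow_pos_of_pos hRp0 _
  have h6 : (2 : ℝ) ^ n ≤ 4 * |C| * Z * (κ + 2 * σ) ^ ns * Rp ^ σ := by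
    have h7 : (2 : ℝ) ^ n * (1 / 2) ^ n = 1 := by
      rw [← mul_pow]; norm_num
    have h8 : 0 < (2 : ℝ) ^ n := by positivity
    have h9 := hlow'.trans h3
    have h10 : 1 / 2 * (Real.Gamma x0 * c ^ (-x0)) ≤
        2 * (|C| * (Real.Gamma x0 * (κ + 2 * σ) ^ ns * (c ^ (-x0) * Rp ^ σ)) * Z) *
          (1 / 2) ^ n := by
      refine h9.trans ?_
      rw [hcc]
      gcongr
    have hpos : 0 < Real.Gamma x0 * c ^ (-x0) := by positivity
    have h11 : (1 / 2 : ℝ) * (Real.Gamma x0 * c ^ (-x0)) ≤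
        (2 * |C| * Z * (κ + 2 * σ) ^ ns * Rp ^ σ * (1 / 2) ^ n) *
          (Real.Gamma x0 * c ^ (-x0)) := by
      refine h10.trans (le_of_eq ?_)
      ring
    have h12 := le_of_mul_le_mul_right h11 hpos
    calc (2 : ℝ) ^ n = 2 * ((2 : ℝ) ^ n * (1 / 2)) := by ring
      _ ≤ 2 * ((2 : ℝ) ^ n * (2 * |C| * Z * (κ + 2 * σ) ^ ns * Rp ^ σ * (1 / 2) ^ n)) := by
          gcongr
      _ = 4 * |C| * Z * (κ + 2 * σ) ^ ns * Rp ^ σ * ((2 : ℝ) ^ n * (1 / 2) ^ n) := by ring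
      _ = _ := by rw [h7, mul_one]
  have hCZ : 0 < 4 * |C| * Z := by
    by_contra hcon
    have h8 : 0 < (2 : ℝ) ^ n := by positivity
    have h9 : 4 * |C| * Z = 0 := le_antisymm (not_lt.1 hcon) (by positivity)
    rw [h9, zero_mul, zero_mul] at h6
    linarith
  have hκσ : 0 < (κ : ℝ) + 2 * σ := by positivity
  have h10 := Real.log_le_log (by positivity) h6
  have hlq : 0 ≤ Real.log (nm q) := Real.log_nonneg hq1
  have hlκ : 0 ≤ Real.log κ := Real.log_nonneg hκ1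
  rw [Real.log_pow, Real.log_mul (by positivity) hRpσ.ne', Real.log_mul hCZ.ne' (by positivity),
    Real.log_pow, Real.log_rpow hRp0, hRp, Real.log_mul (by positivity) hsq.ne',
    Real.log_sqrt (by linarith)] at h10
  have h11 : Real.log ((κ : ℝ) + 2 * σ) ≤ Real.log κ + Real.log (1 + 2 * σ) := by
    rw [← Real.log_mul (by positivity) (by positivity)]
    exact Real.log_le_log hκσ (by nlinarith)
  rw [div_mul_eq_mul_div, le_div_iff₀ hlog2]
  have h12 := le_abs_self (Real.log (4 * |C| * Z))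
  have h13 : 0 ≤ |Real.log (4 * |C| * Z)| := abs_nonneg _
  have h14 : σ * Real.log ((κ : ℝ) + 2 * σ) ≤ σ * (Real.log κ + Real.log (1 + 2 * σ)) :=
    mul_le_mul_of_nonneg_left h11 hσ0.le
  have h15 : 0 ≤ (|Real.log (4 * |C| * Z)| + σ * Real.log (1 + 2 * σ) +
      σ * Real.log (2 * ω.im)) * (Real.log (nm q) + Real.log κ) := by positivity
  have h16 : 0 ≤ σ * Real.log (nm q) := by positivity
  have h17 : B * (1 + Real.log (nm q) + Real.log κ) =
      |Real.log (4 * |C| * Z)| + σ * Real.log (1 + 2 * σ) + σ * Real.log (2 * ω.im) + σ +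
      (|Real.log (4 * |C| * Z)| + σ * Real.log (1 + 2 * σ) +
      σ * Real.log (2 * ω.im)) * (Real.log (nm q) + Real.log κ) + σ * Real.log (nm q) +
      σ * Real.log κ := by rw [hB]; ring
  rw [h17]
  have h18 : (ns : ℝ) * Real.log ((κ : ℝ) + 2 * σ) ≤ σ * (Real.log κ + Real.log (1 + 2 * σ)) := h14
  refine h10.trans ?_
  have h19 : σ * (Real.log κ + Real.log (1 + 2 * σ)) = σ * Real.log κ + σ * Real.log (1 + 2 * σ) := by
    ring
  have h20 : σ * (Real.log (2 * ω.im) + Real.log (nm q) / 2) =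
    σ * Real.log (2 * ω.im) + σ * Real.log (nm q) / 2 := by ring
  linarith

end Pool.Agent.Y690
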