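import Mathlib

/-!
# The residue classes `1` modulo the radical of an odd number
-/

set_option autoImplicit false

open Finset

namespace Pool.Agent.Y690

/-- the radical -/
def rd (q : ℕ) : ℕ := ∏ p ∈ q.primeFactors, p

lemma rd_pos (q : ℕ) : 0 < rd q :=
  Finset.prod_pos fun _ hp => (Nat.prime_of_mem_primeFactors hp).pos

lemma rd_dvd (q : ℕ) : rd q ∣ q := Nat.prod_primeFactors_dvd q

lemma dvd_rd {q p : ℕ} (hq : q ≠ 0) (hp : p.Prime) (h : p ∣ q) : p ∣ rd q :=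
  Finset.dvd_prod_of_mem _ (Nat.mem_primeFactors.2 ⟨hp, h, hq⟩)

/-- `rd q = p r` with `r` prime to `p` -/
lemma rd_split {q p : ℕ} (hq : q ≠ 0) (hp : p.Prime) (h : p ∣ q) :
    ∃ r : ℕ, rd q = r * p ∧ Nat.Coprime r p ∧ r ∣ q := by
  classical
  have hmem : p ∈ q.primeFactors := Nat.mem_primeFactors.2 ⟨hp, h, hq⟩
  refine ⟨∏ l ∈ q.primeFactors.erase p, l, ?_, ?_, ?_⟩
  · rw [rd, mul_comm, Finset.mul_prod_erase q.primeFactors (fun l => l) hmem]
  · refine Nat.Coprime.prod_left fun l hl => ?_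
    rw [Finset.mem_erase] at hl
    exact (Nat.coprime_primes (Nat.prime_of_mem_primeFactors hl.2) hp).2 hl.1
  · refine dvd_trans ?_ (rd_dvd q)
    rw [rd, ← Finset.mul_prod_erase q.primeFactors (fun l => l) hmem]
    exact dvd_mul_left _ _

lemma pow_mul_rd {q p i : ℕ} (hq : q ≠ 0) (hp : p.Prime) (h : p ^ (i + 1) ∣ q) :
    p ^ i ∣ q / rd q := by
  have hpq : p ∣ q := dvd_trans (dvd_pow_self p (by omega)) h
  obtain ⟨r, hr, hrp, hrq⟩ := rd_split hq hp hpq
  have h1 : p ^ i * rd q ∣ q := by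
    rw [hr, mul_comm r p, ← mul_assoc, ← pow_succ]
    exact Nat.Coprime.mul_dvd_of_dvd_of_dvd (Nat.Coprime.pow_left _ hrp.symm) h hrq
  exact (Nat.dvd_div_iff_mul_dvd (rd_dvd q)).2 (by rw [mul_comm]; exact h1)

/-- the order of `1 + rd q` modulo `q` -/
lemma order_one_add {q : ℕ} (hq : q ≠ 0) (hodd : Odd q) :
    orderOf (1 + (rd q : ZMod q)) = q / rd q := by
  have key : ∀ (p i : ℕ), p.Prime → p ^ (i + 1) ∣ q →
      orderOf (1 + (rd q : ZMod (p ^ (i + 1)))) = p ^ i := by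
    intro p i hp h
    have hpq : p ∣ q := dvd_trans (dvd_pow_self p (by omega)) h
    obtain ⟨r, hr, hrp, -⟩ := rd_split hq hp hpq
    have hp2 : p ≠ 2 := by
      rintro rfl
      exact (Nat.not_even_iff_odd.2 hodd) (even_iff_two_dvd.2 hpq)
    have hnd : ¬ (p : ℤ) ∣ (r : ℤ) := by
      intro h1
      have h2 : p ∣ r := by exact_mod_cast h1
      have h3 := Nat.dvd_gcd h2 (dvd_refl p)
      rw [hrp] at h3
      exact hp.one_lt.ne' (Nat.dvd_one.1 h3)
    have h1 := ZMod.orderOf_one_add_mul_prime hp hp2 (r : ℤ) hnd i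
    rw [← h1, hr]
    congr 1
    push_cast
    ring
  refine Nat.dvd_antisymm ?_ ?_
  · -- the upper bound
    refine orderOf_dvd_of_pow_eq_one ?_
    have h1 : q ∣ (1 + rd q) ^ (q / rd q) - 1 := by
      rw [Nat.dvd_iff_prime_pow_dvd_dvd]
      intro p k hp hk
      rcases Nat.eq_zero_or_pos k with rfl | hk0
      · simp
      obtain ⟨i, rfl⟩ : ∃ i, k = i + 1 := ⟨k - 1, by omega⟩
      have h2 := key p i hp hk
      have h3 : (1 + (rd q : ZMod (p ^ (i + 1)))) ^ (q / rd q) = 1 := by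
        refine orderOf_dvd_iff_pow_eq_one.1 ?_
        rw [h2]
        exact pow_mul_rd hq hp hk
      have h4 : (((1 + rd q) ^ (q / rd q) - 1 : ℕ) : ZMod (p ^ (i + 1))) = 0 := by
        rw [Nat.cast_sub (Nat.pos_of_ne_zero (pow_ne_zero _ (by omega)))]
        push_cast
        rw [h3, sub_self]
      exact (ZMod.natCast_eq_zero_iff _ _).1 h4
    have h2 := (ZMod.natCast_eq_zero_iff _ _).2 h1
    rw [Nat.cast_sub (Nat.pos_of_ne_zero (pow_ne_zero _ (by omega)))] at h2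
    push_cast at h2
    exact sub_eq_zero.1 h2
  · rw [Nat.dvd_iff_prime_pow_dvd_dvd]
    intro p k hp hk
    rcases Nat.eq_zero_or_pos k with rfl | hk0
    · simp
    have hqr : q / rd q ∣ q := Nat.div_dvd_of_dvd (rd_dvd q)
    have hpq : p ∣ q := dvd_trans (dvd_trans (dvd_pow_self p hk0.ne') hk) hqr
    have h1 : p ^ (k + 1) ∣ q := by
      have h2 : p ^ k * rd q ∣ q := by
        have := (Nat.dvd_div_iff_mul_dvd (rd_dvd q)).1 hk
        rwa [mul_comm] at this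
      rw [pow_succ]
      exact dvd_trans (mul_dvd_mul_left _ (dvd_rd hq hp hpq)) h2
    have h2 := key p k hp h1
    have h3 := orderOf_map_dvd (ZMod.castHom h1 (ZMod (p ^ (k + 1)))).toMonoidHom (1 + (rd q : ZMod q))
    have h4 : (ZMod.castHom h1 (ZMod (p ^ (k + 1)))).toMonoidHom (1 + (rd q : ZMod q)) =
        1 + (rd q : ZMod (p ^ (k + 1))) := by
      show ZMod.castHom h1 (ZMod (p ^ (k + 1))) (1 + (rd q : ZMod q)) = _
      rw [map_add, map_one, map_natCast]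
    rw [h4, h2] at h3
    exact h3

lemma pow_dvd_iff {q : ℕ} (hq : q ≠ 0) (hodd : Odd q) (t : ℕ) :
    (q : ℤ) ∣ (1 + rd q : ℤ) ^ t - 1 ↔ q / rd q ∣ t := by
  rw [← order_one_add hq hodd, orderOf_dvd_iff_pow_eq_one, ← sub_eq_zero,
    ← ZMod.intCast_zmod_eq_zero_iff_dvd]
  push_cast
  rfl

/-- the powers of `1 + rd q` are the classes `1` modulo `rd q` -/
lemma exists_pow {q : ℕ} (hq : q ≠ 0) (hodd : Odd q) (a : ℤ) (ha : (rd q : ℤ) ∣ a - 1) :
    ∃ t : ℕ, (q : ℤ) ∣ a - (1 + rd q : ℤ) ^ t := by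
  have hNZ : NeZero q := ⟨hq⟩
  have hNZr : NeZero (rd q) := ⟨(rd_pos q).ne'⟩
  set f : ZMod q →+ ZMod (rd q) := (ZMod.castHom (rd_dvd q) (ZMod (rd q))).toAddMonoidHom with hf
  have hsurj : Function.Surjective f := ZMod.castHom_surjective (rd_dvd q)
  have hcard : Nat.card f.ker = q / rd q := by
    have h1 := AddSubgroup.card_mul_index f.ker
    rw [AddSubgroup.index_ker, AddMonoidHom.range_eq_top.2 hsurj] at h1
    rw [Nat.card_eq_fintype_card (α := ZMod q), ZMod.card] at h1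
    have h2 : Nat.card (⊤ : AddSubgroup (ZMod (rd q))) = rd q := by
      rw [AddSubgroup.card_top, Nat.card_eq_fintype_card, ZMod.card]
    rw [h2] at h1
    exact (Nat.div_eq_of_eq_mul_left (rd_pos q) h1.symm).symm
  have hx : ∀ t : ℕ, (1 + (rd q : ZMod q)) ^ t - 1 ∈ f.ker := by
    intro t
    rw [AddMonoidHom.mem_ker]
    show ZMod.castHom (rd_dvd q) (ZMod (rd q)) ((1 + (rd q : ZMod q)) ^ t - 1) = 0
    rw [map_sub, map_pow, map_add, map_one, map_natCast, ZMod.natCast_self, add_zero, one_pow,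
      sub_self]
  let g : Fin (q / rd q) → f.ker := fun t => ⟨(1 + (rd q : ZMod q)) ^ (t : ℕ) - 1, hx t⟩
  have hinj : Function.Injective g := by
    intro s t hst
    have h1 : (1 + (rd q : ZMod q)) ^ (s : ℕ) - 1 = (1 + (rd q : ZMod q)) ^ (t : ℕ) - 1 :=
      congrArg Subtype.val hst
    have h2 : (1 + (rd q : ZMod q)) ^ (s : ℕ) = (1 + (rd q : ZMod q)) ^ (t : ℕ) := sub_left_inj.1 h1
    have ho := order_one_add hq hodd
    apply Fin.ext
    exact pow_injOn_Iio_orderOf (by rw [ho]; exact s.2) (by rw [ho]; exact t.2) h2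
  have hfin : Finite f.ker := inferInstance
  have hbij := hinj.bijective_of_nat_card_le (by rw [hcard, Nat.card_eq_fintype_card,
    Fintype.card_fin])
  have ha' : ((a - 1 : ℤ) : ZMod q) ∈ f.ker := by
    rw [AddMonoidHom.mem_ker]
    show ZMod.castHom (rd_dvd q) (ZMod (rd q)) ((a - 1 : ℤ) : ZMod q) = 0
    rw [map_intCast, ZMod.intCast_zmod_eq_zero_iff_dvd]
    exact ha
  obtain ⟨t, ht⟩ := hbij.2 ⟨_, ha'⟩
  refine ⟨t, ?_⟩
  have h1 : (1 + (rd q : ZMod q)) ^ (t : ℕ) - 1 = ((a - 1 : ℤ) : ZMod q) := congrArg Subtype.val ht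
  rw [← ZMod.intCast_zmod_eq_zero_iff_dvd]
  push_cast at h1 ⊢
  rw [sub_eq_zero]
  exact (sub_left_inj.1 h1).symm

/-- the radical does not change -/
lemma rd_div {q p : ℕ} (hq : q ≠ 0) (hp : p.Prime) (h : p ^ 2 ∣ q) : rd (q / p) = rd q := by
  have hpq : p ∣ q := dvd_trans (dvd_pow_self p (by omega)) h
  obtain ⟨w, rfl⟩ := h
  have hw : w ≠ 0 := by rintro rfl; simp at hq
  have h1 : p ^ 2 * w / p = p * w := by
    rw [pow_two, mul_assoc, Nat.mul_div_cancel_left _ hp.pos]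
  rw [h1, rd, rd]
  congr 1
  rw [Nat.primeFactors_mul hp.ne_zero hw, Nat.primeFactors_mul (pow_ne_zero _ hp.ne_zero) hw,
    Nat.primeFactors_prime_pow (by omega) hp, hp.primeFactors]

lemma rd_mono {a b : ℕ} (hb : b ≠ 0) (h : a ∣ b) : rd a ∣ rd b :=
  Finset.prod_dvd_prod_of_subset _ _ _ (Nat.primeFactors_mono h hb)

end Pool.Agent.Y690
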